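import Pool.Agent.H430R3.SW.Sep

/-! Far levels, and the first property. -/

set_option autoImplicit false
set_option linter.unusedSectionVars false

namespace Pool.Agent.H430R3.SW

open Pool.Agent.Helper636.Bw

variable {V N : Type} {G : SimpleGraph V} {T : SimpleGraph N} {L : V → N} {X : Set V}

/-- balls inside `D` -/
def ball (G : SimpleGraph V) (D : Set V) (r : V) : ℕ → Set V
  | 0 => {r}
  | n + 1 => ball G D r n ∪ {v ∈ D | ∃ u ∈ ball G D r n, G.Adj u v}

lemma ball_conn (D : Set V) (r : V) (n : ℕ) : Conn G (ball G D r n) := by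
  induction n with
  | zero => exact conn_singleton r
  | succ n ih =>
    refine ih.union ?_
    rintro u ⟨_, q, hq, hqu⟩
    exact ⟨q, hq, hqu.symm⟩

lemma ball_mono (D : Set V) (r : V) {n n' : ℕ} (h : n ≤ n') : ball G D r n ⊆ ball G D r n' := by
  induction n', h using Nat.le_induction with
  | base => exact subset_rfl
  | succ n' _ ih => exact ih.trans Set.subset_union_left

lemma ball_sub {D : Set V} {r : V} (hr : r ∈ D) (n : ℕ) : ball G D r n ⊆ D := by
  induction n with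
  | zero => simpa [ball] using hr
  | succ n ih => exact Set.union_subset ih (fun v hv => hv.1)

lemma ball_self (D : Set V) (r : V) (n : ℕ) : r ∈ ball G D r n :=
  ball_mono D r (Nat.zero_le n) rfl

lemma ball_nbr {D : Set V} {r u v : V} {n : ℕ} (hu : u ∈ ball G D r n) (hv : v ∈ D)
    (h : G.Adj u v) : v ∈ ball G D r (n + 1) := Or.inr ⟨hv, u, hu, h⟩

lemma exists_far [Finite V] {X' : Set V} {k : ℕ} (h : ¬ Col G X' (2 * k)) (hk : 1 ≤ k)
    (hnb : ∀ v ∈ X', Col G {u ∈ X' | G.Adj v u} k) :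
    ∃ Q D : Set V, Q ⊆ X' ∧ Q.Nonempty ∧ Conn G Q ∧ D ⊆ X' ∧ ¬ Col G D k ∧
      (∀ u ∈ Q, ∀ v ∈ D, ¬ G.Adj u v) ∧
      ∀ c ∈ D, ∃ w ∈ X', G.Adj w c ∧ ∃ u ∈ Q, G.Adj u w := by
  classical
  -- a minimal set
  obtain ⟨D, ⟨hDX, hD⟩, hmin⟩ := exists_minimalFor_of_wellFoundedLT
    (fun D : Set V => D ⊆ X' ∧ ¬ Col G D (2 * k)) Set.ncard ⟨X', subset_rfl, h⟩
  have hmin' : ∀ D' ⊆ D, D' ≠ D → Col G D' (2 * k) := by
    intro D' h1 h2
    by_contra h3
    have h4 : D'.ncard < D.ncard := Set.ncard_lt_ncard (h1.ssubset_of_ne h2) (Set.toFinite _)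
    have h5 := hmin (j := D') ⟨h1.trans hDX, h3⟩ (le_of_lt h4)
    omega
  obtain ⟨r, hr⟩ := nonempty_of_not_col hD
  -- everything is in a ball
  have hall : ∀ v ∈ D, ∃ n, v ∈ ball G D r n := by
    by_contra hcon
    push Not at hcon
    obtain ⟨v0, hv0, hv0'⟩ := hcon
    let B : Set V := {v ∈ D | ∃ n, v ∈ ball G D r n}
    have hB : Col G B (2 * k) := hmin' B (fun v hv => hv.1) (by
      intro he
      have : v0 ∈ B := by
        rw [he]
        exact hv0
      obtain ⟨_, n, hn⟩ := this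
      exact hv0' n hn)
    have hB' : Col G (D \ B) (2 * k) := hmin' _ Set.diff_subset (by
      intro he
      have : r ∈ D \ B := by
        rw [he]
        exact hr
      exact this.2 ⟨hr, 0, ball_self D r 0⟩)
    obtain ⟨f, f1, f2⟩ := hB
    obtain ⟨g, g1, g2⟩ := hB'
    apply hD
    have hx : ∀ u ∈ B, ∀ v ∈ D, G.Adj u v → v ∈ B := by
      intro u hu v hv huv
      obtain ⟨_, n, hn⟩ := hu
      exact ⟨hv, n + 1, ball_nbr hn hv huv⟩
    refine ⟨fun v => if v ∈ B then f v else g v, ?_, ?_⟩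
    · intro v hv
      by_cases hvB : v ∈ B
      · simp only [if_pos hvB]
        exact f1 v hvB
      · simp only [if_neg hvB]
        exact g1 v ⟨hv, hvB⟩
    · intro u hu v hv huv
      by_cases huB : u ∈ B
      · have hvB := hx u huB v hv huv
        simp only [if_pos huB, if_pos hvB]
        exact f2 u huB v hvB huv
      · have hvB : v ∉ B := fun hvB => huB (hx v hvB u hu huv.symm)
        simp only [if_neg huB, if_neg hvB]
        exact g2 u ⟨hu, huB⟩ v ⟨hv, hvB⟩ huv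
  -- the level
  let lev : V → ℕ := fun v => if hv : ∃ n, v ∈ ball G D r n then Nat.find hv else 0
  have hlev : ∀ v ∈ D, v ∈ ball G D r (lev v) := by
    intro v hv
    have h1 := hall v hv
    simp only [lev, dif_pos h1]
    exact Nat.find_spec h1
  have hlev' : ∀ v n, v ∈ ball G D r n → lev v ≤ n := by
    intro v n hv
    have h1 : ∃ n, v ∈ ball G D r n := ⟨n, hv⟩
    simp only [lev, dif_pos h1]
    exact Nat.find_min' h1 hv
  have hstep : ∀ u ∈ D, ∀ v ∈ D, G.Adj u v → lev v ≤ lev u + 1 := by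
    intro u hu v hv huv
    exact hlev' v _ (ball_nbr (hlev u hu) hv huv)
  have hex : ∃ n, ¬ Col G {v ∈ D | lev v = n} k := by
    by_contra hcon
    push Not at hcon
    choose g g1 g2 using hcon
    apply hD
    refine ⟨fun v => g (lev v) v + k * (lev v % 2), ?_, ?_⟩
    · intro v hv
      have h1 := g1 (lev v) v ⟨hv, rfl⟩
      have h2 : lev v % 2 = 0 ∨ lev v % 2 = 1 := by omega
      show g (lev v) v + k * (lev v % 2) < 2 * k
      rcases h2 with h2 | h2 <;> rw [h2] <;> omega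
    · intro u hu v hv huv
      by_cases he : lev u = lev v
      · have h3 := g2 (lev v) u ⟨hu, he⟩ v ⟨hv, rfl⟩ huv
        simp only [he]
        omega
      · have h1 := g1 (lev v) v ⟨hv, rfl⟩
        have h1' := g1 (lev u) u ⟨hu, rfl⟩
        have h2 := hstep u hu v hv huv
        have h3 := hstep v hv u hu huv.symm
        have h4 : (lev u % 2 = 0 ∧ lev v % 2 = 1) ∨ (lev u % 2 = 1 ∧ lev v % 2 = 0) := by omega
        rcases h4 with ⟨h4, h5⟩ | ⟨h4, h5⟩ <;> simp only [h4, h5] <;> omega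
  obtain ⟨n, hn⟩ := hex
  have hn2 : 2 ≤ n := by
    by_contra hcon
    have h1 : n = 0 ∨ n = 1 := by omega
    rcases h1 with rfl | rfl
    · apply hn
      refine ((col_singleton r).mono hk).mono_set ?_
      intro v hv
      have h2 := hlev v hv.1
      rw [hv.2] at h2
      exact h2
    · apply hn
      refine (hnb r (hDX hr)).mono_set ?_
      intro v hv
      have h2 := hlev v hv.1
      rw [hv.2] at h2
      rcases h2 with h2 | h2
      · have h3 := hlev' v 0 h2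
        rw [hv.2] at h3
        omega
      · obtain ⟨h3, u, hu, huv⟩ := h2
        have hur : u = r := hu
        subst hur
        exact ⟨hDX h3, huv⟩
  obtain ⟨l, rfl⟩ : ∃ l, n = l + 2 := ⟨n - 2, by omega⟩
  refine ⟨ball G D r l, {v ∈ D | lev v = l + 2}, (ball_sub hr l).trans hDX, ⟨r, ball_self D r l⟩,
    ball_conn D r l, fun v hv => hDX hv.1, hn, ?_, ?_⟩
  · intro u hu v hv huv
    have h1 := hlev' v _ (ball_nbr hu hv.1 huv)
    have h2 := hv.2
    omega
  · intro c hc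
    have h2 := hlev c hc.1
    rw [hc.2] at h2
    rcases h2 with h2 | h2
    · have h3 := hlev' c _ h2
      have h4 := hc.2
      omega
    · obtain ⟨h3, w, hw, hwc⟩ := h2
      rcases hw with hw | hw
      · have h5 := hlev' c _ (ball_nbr hw h3 hwc)
        have h6 := hc.2
        omega
      · obtain ⟨h7, u, hu, huw⟩ := hw
        exact ⟨w, hDX h7, hwc, u, hu, huw⟩

/-- the combined use of separation and domination -/
theorem sepDom [Finite V] [Finite N] (hT : T.IsTree) (hdeg : ∀ x, (T.neighborSet x).ncard ≤ 3)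
    {m' t q : ℕ} {M : ℕ → ℕ} (hMB : MB G T L X (m' + 1))
    (ht : ∀ v ∈ X, Col G {u ∈ X | G.Adj v u} t)
    (hq : ∀ x, Col G {v ∈ X | L v = x} q)
    (hM : ∀ (L' : V → N) (D' : Set V) (q' : ℕ), D' ⊆ X → MB G T L' D' m' →
      (∀ x, Col G {v ∈ D' | L' v = x} q') → Col G D' (M q'))
    {Q D U W : Set V} (hQX : Q ⊆ X) (hQ : Q.Nonempty) (hconn : Conn G Q) (hDX : D ⊆ X)
    (hanti : ∀ u ∈ Q, ∀ v ∈ D, ¬ G.Adj u v) (hUQ : U ⊆ Q) (hWX : W ⊆ X)
    (hWU : ∀ w ∈ W, ∃ u ∈ U, G.Adj u w) (hDW : ∀ c ∈ D, ∃ w ∈ W, G.Adj w c) {b : ℕ}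
    (hb : ¬ Col G D (M (q + 3 * ((m' + 1) * t)) + ((m' + 1) * t + (m' + 1) * b))) :
    ∃ u ∈ U, ¬ Col G {c ∈ D | ∃ w ∈ W, G.Adj u w ∧ G.Adj w c} b := by
  by_contra hcon
  push Not at hcon
  apply hb
  refine sepL hT hdeg hMB ht hq hM hQX hQ hconn hDX hanti ?_
  intro a c hac hQa
  obtain ⟨A', h1, h2, h3⟩ := dom (A := U) (B := {w ∈ W | Rch T c a (L w)}) hMB hac
    (fun x hx => ⟨hQX (hUQ hx), hQa x (hUQ hx)⟩) (fun y hy => ⟨hWX hy.1, hy.2⟩)
    (fun y hy => hWU y hy.1)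
  refine ((col_biUnion A' (fun u => {c ∈ D | ∃ w ∈ W, G.Adj u w ∧ G.Adj w c}) b
    (fun u hu => hcon u (h1 u hu))).mono (Nat.mul_le_mul_right _ h2)).mono_set ?_
  rintro v ⟨hv, hv1, hv2⟩
  obtain ⟨w, hw, hwv⟩ := hDW v hv
  have hwc : Rch T c a (L w) := by
    refine (rch_or hT a c (L w)).resolve_left ?_
    intro h4
    exact hv2 w (hWX hw) h4 hwv
  obtain ⟨u, hu, huw⟩ := h3 w ⟨hw, hwc⟩
  simp only [Set.mem_iUnion, exists_prop]
  exact ⟨u, hu, hv, w, hw, huw, hwv⟩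

theorem a1 [Finite V] [Finite N] (hT : T.IsTree) (hdeg : ∀ x, (T.neighborSet x).ncard ≤ 3)
    {m' t q : ℕ} {M : ℕ → ℕ} (hMB : MB G T L X (m' + 1))
    (ht : ∀ v ∈ X, Col G {u ∈ X | G.Adj v u} t)
    (hq : ∀ x, Col G {v ∈ X | L v = x} q)
    (hM : ∀ (L' : V → N) (D' : Set V) (q' : ℕ), D' ⊆ X → MB G T L' D' m' →
      (∀ x, Col G {v ∈ D' | L' v = x} q') → Col G D' (M q'))
    {X' : Set V} (hX' : X' ⊆ X) {h : ℕ}
    (hb : ¬ Col G X' (2 * (1 + t + (M (q + 3 * ((m' + 1) * t)) + ((m' + 1) * t +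
      (m' + 1) * h))))) :
    ∃ z ∈ X', ¬ Col G {c ∈ X' | ∃ w ∈ X', G.Adj z w ∧ G.Adj w c} h := by
  obtain ⟨Q, D, h1, h2, h3, h4, h5, h6, h7⟩ := exists_far hb (by omega) (fun v hv =>
    ((ht v (hX' hv)).mono_set (fun u hu => ⟨hX' hu.1, hu.2⟩)).mono (by omega))
  obtain ⟨u, hu, hcol⟩ := sepDom (W := {w ∈ X' | ∃ u ∈ Q, G.Adj u w}) (b := h) hT hdeg
    hMB ht hq hM (h1.trans hX') h2 h3 (h4.trans hX') h6 subset_rfl
    (fun w hw => hX' hw.1) (fun w hw => hw.2)
    (fun c hc => by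
      obtain ⟨w, hw, hwc, u, hu, huw⟩ := h7 c hc
      exact ⟨w, ⟨hw, u, hu, huw⟩, hwc⟩)
    (fun hc => h5 (hc.mono (by omega)))
  refine ⟨u, h1 hu, fun hc => hcol (hc.mono_set ?_)⟩
  rintro c ⟨hc, w, hw, huw, hwc⟩
  exact ⟨h4 hc, w, hw.1, huw, hwc⟩

end Pool.Agent.H430R3.SW
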