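import Mathlib

/-! Colourings of vertex sets. -/

set_option autoImplicit false
set_option linter.unusedSectionVars false

namespace Pool.Agent.H430R3.SW

variable {V : Type} {G : SimpleGraph V}

/-- the set `S` can be properly coloured with `k` colours -/
def Col (G : SimpleGraph V) (S : Set V) (k : ℕ) : Prop :=
  ∃ f : V → ℕ, (∀ v ∈ S, f v < k) ∧ ∀ u ∈ S, ∀ v ∈ S, G.Adj u v → f u ≠ f v

lemma Col.mono_set {S S' : Set V} {k : ℕ} (h : Col G S k) (hs : S' ⊆ S) : Col G S' k := by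
  obtain ⟨f, h1, h2⟩ := h
  exact ⟨f, fun v hv => h1 v (hs hv), fun u hu v hv => h2 u (hs hu) v (hs hv)⟩

lemma Col.mono {S : Set V} {k k' : ℕ} (h : Col G S k) (hk : k ≤ k') : Col G S k' := by
  obtain ⟨f, h1, h2⟩ := h
  exact ⟨f, fun v hv => (h1 v hv).trans_le hk, h2⟩

lemma Col.union {S S' : Set V} {a b : ℕ} (h : Col G S a) (h' : Col G S' b) :
    Col G (S ∪ S') (a + b) := by
  classical
  obtain ⟨f, h1, h2⟩ := h
  obtain ⟨g, g1, g2⟩ := h'
  refine ⟨fun v => if v ∈ S then f v else a + g v, ?_, ?_⟩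
  · intro v hv
    by_cases h : v ∈ S
    · simp only [if_pos h]
      have := h1 v h
      omega
    · simp only [if_neg h]
      have := g1 v (hv.resolve_left h)
      omega
  · intro u hu v hv huv
    by_cases hus : u ∈ S <;> by_cases hvs : v ∈ S
    · simp only [if_pos hus, if_pos hvs]
      exact h2 u hus v hvs huv
    · simp only [if_pos hus, if_neg hvs]
      have := h1 u hus
      omega
    · simp only [if_neg hus, if_pos hvs]
      have := h1 v hvs
      omega
    · simp only [if_neg hus, if_neg hvs]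
      have := g2 u (hu.resolve_left hus) v (hv.resolve_left hvs) huv
      omega

lemma col_empty (k : ℕ) : Col G ∅ k := ⟨fun _ => 0, by simp, by simp⟩

lemma col_zero {S : Set V} : Col G S 0 ↔ S = ∅ := by
  constructor
  · rintro ⟨f, h1, _⟩
    rw [Set.eq_empty_iff_forall_notMem]
    intro v hv
    exact absurd (h1 v hv) (Nat.not_lt_zero _)
  · rintro rfl
    exact col_empty 0

lemma nonempty_of_not_col {S : Set V} {k : ℕ} (h : ¬ Col G S k) : S.Nonempty := by
  by_contra hne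
  rw [Set.not_nonempty_iff_eq_empty] at hne
  rw [hne] at h
  exact h (col_empty k)

lemma col_indep {S : Set V} (h : ∀ u ∈ S, ∀ v ∈ S, ¬ G.Adj u v) : Col G S 1 :=
  ⟨fun _ => 0, fun _ _ => one_pos, fun u hu v hv huv => absurd huv (h u hu v hv)⟩

lemma col_singleton (v : V) : Col G {v} 1 := by
  apply col_indep
  intro a ha b hb
  rw [Set.mem_singleton_iff] at ha hb
  rw [ha, hb]
  exact G.loopless.irrefl _

lemma col_biUnion {ι : Type} (I : Finset ι) (S : ι → Set V) (k : ℕ)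
    (h : ∀ i ∈ I, Col G (S i) k) : Col G (⋃ i ∈ I, S i) (I.card * k) := by
  classical
  induction I using Finset.induction_on with
  | empty => simpa using col_empty 0
  | insert a s ha ih =>
    rw [Finset.card_insert_of_notMem ha]
    have h1 := (h a (Finset.mem_insert_self _ _)).union
      (ih fun i hi => h i (Finset.mem_insert_of_mem hi))
    have e : k + s.card * k = (s.card + 1) * k := by ring
    rw [e] at h1
    refine h1.mono_set ?_
    intro v hv
    simp only [Set.mem_iUnion, Finset.mem_insert, exists_prop] at hv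
    obtain ⟨i, hi | hi, hv⟩ := hv
    · left
      rwa [hi] at hv
    · right
      simp only [Set.mem_iUnion, exists_prop]
      exact ⟨i, hi, hv⟩

/-- one of finitely many parts is hard to colour -/
lemma exists_part {ι : Type} (I : Finset ι) (S : ι → Set V) {D : Set V} {n k : ℕ} (hI : I.card ≤ n)
    (hD : ∀ v ∈ D, ∃ i ∈ I, v ∈ S i) (h : ¬ Col G D (n * k)) :
    ∃ i ∈ I, ¬ Col G (D ∩ S i) k := by
  by_contra hcon
  push Not at hcon
  apply h
  refine ((col_biUnion I (fun i => D ∩ S i) k hcon).mono (Nat.mul_le_mul_right _ hI)).mono_set ?_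
  intro v hv
  obtain ⟨i, hi, hvi⟩ := hD v hv
  simp only [Set.mem_iUnion, exists_prop]
  exact ⟨i, hi, hv, hvi⟩

lemma not_col_of_union {D A B : Set V} {a b : ℕ} (h : ¬ Col G D (a + b)) (hD : D ⊆ A ∪ B)
    (hA : Col G A a) : ¬ Col G B b := fun hB => h ((hA.union hB).mono_set hD)

/-- splitting in two parts -/
lemma not_col_split {D A B : Set V} {a b : ℕ} (h : ¬ Col G D (a + b)) (hD : D ⊆ A ∪ B) :
    ¬ Col G A a ∨ ¬ Col G B b := by
  by_contra hcon
  push Not at hcon
  exact h ((hcon.1.union hcon.2).mono_set hD)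

/-- an independent class -/
lemma exists_class {W D : Set V} {t k : ℕ} (hW : Col G W t) (hD : ∀ c ∈ D, ∃ w ∈ W, G.Adj w c)
    (h : ¬ Col G D (t * k)) : ∃ W' ⊆ W, (∀ u ∈ W', ∀ v ∈ W', ¬ G.Adj u v) ∧
      ¬ Col G {c ∈ D | ∃ w ∈ W', G.Adj w c} k := by
  obtain ⟨f, h1, h2⟩ := hW
  obtain ⟨i, hi, hcol⟩ := exists_part (Finset.range t)
    (fun i => {c | ∃ w ∈ {w ∈ W | f w = i}, G.Adj w c}) (by simp) (by
      intro c hc
      obtain ⟨w, hw, hwc⟩ := hD c hc
      exact ⟨f w, Finset.mem_range.2 (h1 w hw), w, ⟨hw, rfl⟩, hwc⟩) h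
  refine ⟨{w ∈ W | f w = i}, fun w hw => hw.1, ?_, ?_⟩
  · intro u hu v hv huv
    exact h2 u hu.1 v hv.1 huv (hu.2.trans hv.2.symm)
  · intro hc
    apply hcol
    refine hc.mono_set ?_
    intro c hc
    exact ⟨hc.1, hc.2⟩

/-- connectedness: every bipartition is crossed by an edge -/
def Conn (G : SimpleGraph V) (Q : Set V) : Prop :=
  ∀ P : V → Prop, (∃ q ∈ Q, P q) → (∃ q ∈ Q, ¬ P q) → ∃ q ∈ Q, ∃ q' ∈ Q, G.Adj q q' ∧ P q ∧ ¬ P q'

lemma conn_singleton (v : V) : Conn G {v} := by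
  intro P h1 h2
  obtain ⟨q, hq, hP⟩ := h1
  obtain ⟨q', hq', hP'⟩ := h2
  rw [Set.mem_singleton_iff] at hq hq'
  subst hq
  subst hq'
  exact absurd hP hP'

lemma Conn.union {Q U : Set V} (h : Conn G Q) (hU : ∀ u ∈ U, ∃ q ∈ Q, G.Adj u q) :
    Conn G (Q ∪ U) := by
  intro P h1 h2
  by_cases hp : ∃ q ∈ Q, P q
  · by_cases hn : ∃ q ∈ Q, ¬ P q
    · obtain ⟨q, hq, q', hq', h3⟩ := h P hp hn
      exact ⟨q, Or.inl hq, q', Or.inl hq', h3⟩
    · push Not at hn
      obtain ⟨u, hu, hPu⟩ := h2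
      rcases hu with hu | hu
      · exact absurd (hn u hu) hPu
      · obtain ⟨q, hq, hadj⟩ := hU u hu
        exact ⟨q, Or.inl hq, u, Or.inr hu, hadj.symm, hn q hq, hPu⟩
  · push Not at hp
    obtain ⟨u, hu, hPu⟩ := h1
    rcases hu with hu | hu
    · exact absurd hPu (hp u hu)
    · obtain ⟨q, hq, hadj⟩ := hU u hu
      exact ⟨u, Or.inr hu, q, Or.inl hq, hadj, hPu, hp q hq⟩

end Pool.Agent.H430R3.SW
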