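import Pool.Agent.H430R3.SW.Stage

/-! The end of the stages. -/

set_option autoImplicit false
set_option linter.unusedSectionVars false

namespace Pool.Agent.H430R3.SW

open Pool.Agent.Helper636.Bw

variable {V N : Type} {G : SimpleGraph V} {T : SimpleGraph N} {L : V → N} {X : Set V}

theorem final [Finite V] [Finite N] {m' t q : ℕ} {M : ℕ → ℕ} (hc : Ctx G T L X m' t q M)
    {X' : Set V} (hX' : X' ⊆ X) {κ r : ℕ}
    (hr : ∀ f : ℕ → ℕ → Option (Fin (κ + 1)), ∃ g : Fin (m' + 3) → ℕ, StrictMono g ∧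
      (∀ i, g i < r) ∧ ∃ a, ∀ i j, i < j → f (g i) (g j) = a)
    (st : St G X' (κ + 1) r (M (q + 3 * ((m' + 1) * t)) + ((m' + 1) * t + 0))) : False := by
  classical
  obtain ⟨g, hg, hgr, a, hga⟩ := hr st.tp
  have hr0 : 0 < r := lt_of_le_of_lt (Nat.zero_le _) (hgr 0)
  have hex : ∃ a b, T.Adj a b ∧ (∀ u ∈ st.Q, Rch T a b (L u)) ∧
      ¬ Col G {v ∈ st.C | Rch T b a (L v) ∧ ∀ x ∈ X, Rch T a b (L x) → ¬ G.Adj x v} 0 := by
    by_contra hcon
    push Not at hcon
    exact st.hcol (sepL hc.tree hc.deg hc.mb hc.nb hc.fib hc.low (st.hQ.trans hX')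
      ⟨st.e 0 0, st.he 0 hr0 0⟩ st.hconn (st.hC.trans hX') st.hanti hcon)
  obtain ⟨c, d, hcd, hQ, hcol⟩ := hex
  obtain ⟨v, hv, hv1, hv2⟩ := nonempty_of_not_col hcol
  have hy : ∀ i : Fin (m' + 3), ∃ y ∈ st.Y (g i), G.Adj y v := fun i =>
    st.hCY (g i) (hgr i) v hv
  choose y hyY hyv using hy
  have hyX : ∀ i, y i ∈ X := fun i => hX' (st.hYX (g i) (hgr i) (hyY i))
  have hyd : ∀ i, Rch T d c (L (y i)) := by
    intro i
    refine (rch_or hc.tree d c (L (y i))).resolve_right ?_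
    intro h
    exact hv2 (y i) (hyX i) h (hyv i)
  have hcs : ∀ t : Fin (m' + 2), g t.castSucc < g t.succ := fun t => hg Fin.castSucc_lt_succ
  cases a with
  | none =>
    apply hc.mb c d hcd
    refine ⟨fun t : Fin (m' + 2) => st.u (g t.castSucc) (g t.succ), fun t => y t.succ, ?_, ?_⟩
    · intro t
      have h1 := st.hn1 (g t.castSucc) (g t.succ) (hcs t) (hgr _) (hga _ _ Fin.castSucc_lt_succ)
      exact ⟨hX' (st.hQ h1), hyX _, hQ _ h1, hyd _⟩
    · intro t s
      constructor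
      · intro hadj
        by_contra hne
        rcases lt_or_gt_of_ne hne with hlt | hlt
        · exact st.hn4 (g t.castSucc) (g t.succ) (g s.succ) (hcs t)
            (hg (Fin.succ_lt_succ_iff.2 hlt)) (hgr _) (hga _ _ Fin.castSucc_lt_succ) _ (hyY _) hadj
        · have hle : s.succ ≤ t.castSucc := by
            rw [Fin.le_def]
            simp only [Fin.val_succ, Fin.val_castSucc]
            have := Fin.lt_def.1 hlt
            omega
          rcases eq_or_lt_of_le hle with he | hl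
          · have hYs := hyY s.succ
            have hadj' : G.Adj (st.u (g t.castSucc) (g t.succ)) (y s.succ) := hadj
            rw [he] at hYs hadj'
            exact st.hn3 (g t.castSucc) (g t.succ) (hcs t) (hgr _)
              (hga _ _ Fin.castSucc_lt_succ) _ hYs hadj'
          · exact st.hn5 (g s.succ) (g t.castSucc) (g t.succ) (hg hl) (hcs t) (hgr _)
              (hga _ _ hl) (hga _ _ Fin.castSucc_lt_succ) _ (hyY _) hadj
      · rintro rfl
        exact st.hn2 (g t.castSucc) (g t.succ) (hcs t) (hgr _) (hga _ _ Fin.castSucc_lt_succ) _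
          (hyY _)
  | some s0 =>
    apply hc.mb c d hcd
    refine ⟨fun t : Fin (m' + 2) => st.e (g t.castSucc) s0, fun t => y t.castSucc, ?_, ?_⟩
    · intro t
      have h1 := st.he (g t.castSucc) (hgr _) s0
      exact ⟨hX' (st.hQ h1), hyX _, hQ _ h1, hyd _⟩
    · intro t s
      constructor
      · intro hadj
        by_contra hne
        rcases lt_or_gt_of_ne hne with hlt | hlt
        · exact st.hd (g t.castSucc) (g s.castSucc) (hg (Fin.castSucc_lt_castSucc_iff.2 hlt))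
            (hgr _) s0 _ (hyY _) hadj
        · have hl := Fin.castSucc_lt_castSucc_iff.2 hlt
          exact st.hs (g s.castSucc) (g t.castSucc) (hg hl)
            (hgr _) s0 (hga _ _ hl) _ (hyY _) hadj
      · rintro rfl
        exact st.hYe (g t.castSucc) (hgr _) _ (hyY _) s0

/-- the number needed at the beginning of `k` stages -/
def NB (F : ℕ → ℕ) (A m t κ h0 : ℕ) : ℕ → ℕ → ℕ
  | 0, b => b
  | k + 1, b => NB F A m t κ h0 k (NN F A m t κ h0 k b)

theorem stages [Finite V] [Finite N] {m' t q : ℕ} {M : ℕ → ℕ} (hc : Ctx G T L X m' t q M)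
    {X' : Set V} (hX' : X' ⊆ X) {κ h0 : ℕ} {F : ℕ → ℕ}
    (hAK : ∀ (h : ℕ) (X'' : Set V), X'' ⊆ X → ¬ Col G X'' (F h) → ∃ e : Fin (κ + 1) → V,
      (∀ s, e s ∈ X'') ∧ (∀ s s', s ≠ s' → G.Adj (e s) (e s')) ∧
      ¬ Col G {c ∈ X'' | ∃ w ∈ X'', (∀ s, G.Adj (e s) w) ∧ G.Adj w c} h)
    (hH : ∀ (e : Fin (κ + 1) → V) (v : V), (∀ s, e s ∈ X') → v ∈ X' →
      (∀ s s', s ≠ s' → G.Adj (e s) (e s')) → (∀ s, G.Adj (e s) v) →
      Col G {c ∈ X' | ∃ w ∈ X', (∀ s, G.Adj (e s) w) ∧ G.Adj v w ∧ G.Adj w c} h0) (k : ℕ) :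
    ∀ b : ℕ, ¬ Col G X' (NB F (M (q + 3 * ((m' + 1) * t))) (m' + 1) t κ h0 k b) →
      Nonempty (St G X' (κ + 1) k b) := by
  induction k with
  | zero =>
    intro b hb
    refine ⟨{ Q := ∅, C := X', e := fun _ _ => (nonempty_of_not_col hb).some, Y := fun _ => ∅,
              tp := fun _ _ => none, u := fun _ _ => (nonempty_of_not_col hb).some,
              hQ := Set.empty_subset _, hQ0 := fun _ => rfl, hconn := ?_, hC := subset_rfl,
              hcol := hb, hanti := fun x hx => absurd hx (Set.notMem_empty x), he := ?_,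
              hee := ?_, hYX := ?_, hYi := ?_, hYe := ?_, hCY := ?_, hd := ?_, hs := ?_,
              hn1 := ?_, hn2 := ?_, hn3 := ?_, hn4 := ?_, hn5 := ?_, hn6 := ?_ }⟩
    · rintro P ⟨x, hx, _⟩
      exact absurd hx (Set.notMem_empty x)
    all_goals intros; omega
  | succ k ih =>
    intro b hb
    obtain ⟨st⟩ := ih _ hb
    exact step hc hX' hAK hH st

/-- one step of the cliques -/
theorem aStep [Finite V] [Finite N] {m' t q : ℕ} {M : ℕ → ℕ} (hc : Ctx G T L X m' t q M)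
    {κ r : ℕ} {F : ℕ → ℕ}
    (hr : ∀ f : ℕ → ℕ → Option (Fin (κ + 1)), ∃ g : Fin (m' + 3) → ℕ, StrictMono g ∧
      (∀ i, g i < r) ∧ ∃ a, ∀ i j, i < j → f (g i) (g j) = a)
    (hAK : ∀ (h : ℕ) (X'' : Set V), X'' ⊆ X → ¬ Col G X'' (F h) → ∃ e : Fin (κ + 1) → V,
      (∀ s, e s ∈ X'') ∧ (∀ s s', s ≠ s' → G.Adj (e s) (e s')) ∧
      ¬ Col G {c ∈ X'' | ∃ w ∈ X'', (∀ s, G.Adj (e s) w) ∧ G.Adj w c} h) (h0 : ℕ)
    (X' : Set V) (hX' : X' ⊆ X)
    (hb : ¬ Col G X' (NB F (M (q + 3 * ((m' + 1) * t))) (m' + 1) t κ h0 r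
      (M (q + 3 * ((m' + 1) * t)) + ((m' + 1) * t + 0)))) :
    ∃ e : Fin (κ + 2) → V,
      (∀ s, e s ∈ X') ∧ (∀ s s', s ≠ s' → G.Adj (e s) (e s')) ∧
      ¬ Col G {c ∈ X' | ∃ w ∈ X', (∀ s, G.Adj (e s) w) ∧ G.Adj w c} h0 := by
  by_contra hcon
  push Not at hcon
  obtain ⟨st⟩ := stages hc hX' hAK (h0 := h0) (fun e v he hv hee hev => by
    have h1 := hcon (Fin.cons v e) (by
      intro s
      refine Fin.cases ?_ (fun s => ?_) s
      · simpa using hv
      · simpa using he s) (by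
      intro s s'
      refine Fin.cases ?_ (fun s => ?_) s <;> refine Fin.cases ?_ (fun s' => ?_) s'
      · intro h
        exact absurd rfl h
      · intro _
        simpa using (hev s').symm
      · intro _
        simpa using hev s
      · intro h
        simp only [Fin.cons_succ]
        exact hee s s' (fun h' => h (by rw [h'])))
    refine h1.mono_set ?_
    rintro c ⟨hc, w, hw, h2, h3, h4⟩
    refine ⟨hc, w, hw, ?_, h4⟩
    intro s
    refine Fin.cases ?_ (fun s => ?_) s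
    · simpa using h3
    · simpa using h2 s) r _ hb
  exact final hc hX' hr st

end Pool.Agent.H430R3.SW
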