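import Pool.Agent.H430R3.SW.Fin

/-! The main induction. -/

set_option autoImplicit false
set_option linter.unusedSectionVars false

namespace Pool.Agent.H430R3.SW

open Pool.Agent.Helper636.Bw

theorem ak_exists (m' t q : ℕ) (M : ℕ → ℕ) (κ : ℕ) : ∃ F : ℕ → ℕ,
    ∀ (V N : Type) [Finite V] [Finite N] (G : SimpleGraph V) (T : SimpleGraph N) (L : V → N)
      (X : Set V), Ctx G T L X m' t q M → ∀ (h : ℕ) (X'' : Set V), X'' ⊆ X →
      ¬ Col G X'' (F h) → ∃ e : Fin (κ + 1) → V,
      (∀ s, e s ∈ X'') ∧ (∀ s s', s ≠ s' → G.Adj (e s) (e s')) ∧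
      ¬ Col G {c ∈ X'' | ∃ w ∈ X'', (∀ s, G.Adj (e s) w) ∧ G.Adj w c} h := by
  induction κ with
  | zero =>
    refine ⟨fun h => 2 * (1 + t + (M (q + 3 * ((m' + 1) * t)) + ((m' + 1) * t +
      (m' + 1) * h))), ?_⟩
    intro V N _ _ G T L X hc h X'' hX hb
    obtain ⟨z, hz, hcol⟩ := a1 hc.tree hc.deg hc.mb hc.nb hc.fib hc.low hX hb
    refine ⟨fun _ => z, fun _ => hz, ?_, ?_⟩
    · intro s s' hss
      exact absurd (Subsingleton.elim (α := Fin 1) s s') hss
    · intro h1
      apply hcol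
      refine h1.mono_set ?_
      rintro c ⟨hc, w, hw, h2, h3⟩
      exact ⟨hc, w, hw, fun _ => h2, h3⟩
  | succ κ ih =>
    obtain ⟨F, hF⟩ := ih
    obtain ⟨r, hr⟩ := ramsey (α := Option (Fin (κ + 1))) (m' + 3)
    refine ⟨fun h0 => NB F (M (q + 3 * ((m' + 1) * t))) (m' + 1) t κ h0 r
      (M (q + 3 * ((m' + 1) * t)) + ((m' + 1) * t + 0)), ?_⟩
    intro V N _ _ G T L X hc h X'' hX hb
    exact aStep hc hr (hF V N G T L X hc) h X'' hX hb

/-- no clique with `ω + 1` vertices -/
def CF {V : Type} (G : SimpleGraph V) (X : Set V) (ω : ℕ) : Prop :=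
  ∀ e : Fin (ω + 1) → V, (∀ s, e s ∈ X) → (∀ s s', s ≠ s' → G.Adj (e s) (e s')) → False

lemma clique_cons {V : Type} {G : SimpleGraph V} {ω : ℕ} {e : Fin ω → V} {v : V}
    (he : ∀ s s', s ≠ s' → G.Adj (e s) (e s')) (hv : ∀ s, G.Adj v (e s)) :
    ∀ s s' : Fin (ω + 1), s ≠ s' → G.Adj ((Fin.cons v e : Fin (ω + 1) → V) s)
      ((Fin.cons v e : Fin (ω + 1) → V) s') := by
  intro s s'
  refine Fin.cases ?_ (fun s => ?_) s <;> refine Fin.cases ?_ (fun s' => ?_) s'
  · intro h
    exact absurd rfl h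
  · intro _
    simpa using hv s'
  · intro _
    simpa using (hv s).symm
  · intro h
    simp only [Fin.cons_succ]
    exact he s s' (fun h' => h (by rw [h']))

theorem main (m : ℕ) : ∀ ω q : ℕ, ∃ c : ℕ,
    ∀ (V N : Type) [Finite V] [Finite N] (G : SimpleGraph V) (T : SimpleGraph N) (L : V → N)
      (X : Set V), T.IsTree → (∀ x, (T.neighborSet x).ncard ≤ 3) → MB G T L X m → CF G X ω →
      (∀ x, Col G {v ∈ X | L v = x} q) → Col G X c := by
  classical
  induction m with
  | zero =>
    intro ω q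
    refine ⟨q, ?_⟩
    intro V N _ _ G T L X hT hdeg hMB hCF hq
    choose f hf1 hf2 using hq
    refine ⟨fun v => f (L v) v, fun v hv => hf1 (L v) v ⟨hv, rfl⟩, ?_⟩
    intro u hu v hv huv
    by_cases he : L u = L v
    · simp only [he]
      exact hf2 (L v) u ⟨hu, he⟩ v ⟨hv, rfl⟩ huv
    · exfalso
      obtain ⟨a, ha, hr⟩ := exists_dir hT (Ne.symm he)
      refine hMB (L u) a ha ⟨fun _ => u, fun _ => v, ?_, ?_⟩
      · intro i
        exact ⟨hu, hv, rch_refl _ _, hr⟩
      · intro i j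
        exact ⟨fun _ => Subsingleton.elim (α := Fin 1) i j, fun _ => huv⟩
  | succ m' ih =>
    intro ω
    induction ω with
    | zero =>
      intro q
      refine ⟨0, ?_⟩
      intro V N _ _ G T L X hT hdeg hMB hCF hq
      rw [col_zero, Set.eq_empty_iff_forall_notMem]
      intro v hv
      exact hCF (fun _ => v) (fun _ => hv) (fun s s' hss =>
        absurd (Subsingleton.elim (α := Fin 1) s s') hss)
    | succ ω ihω =>
      intro q
      obtain ⟨t, ht⟩ := ihω q
      choose M hM using ih (ω + 1)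
      obtain ⟨F, hF⟩ := ak_exists m' t q M ω
      refine ⟨F 0, ?_⟩
      intro V N _ _ G T L X hT hdeg hMB hCF hq
      have hctx : Ctx G T L X m' t q M := by
        refine ⟨hT, hdeg, hMB, ?_, hq, ?_⟩
        · intro v hv
          refine ht V N G T L _ hT hdeg (hMB.mono fun u hu => hu.1) ?_ (fun x =>
            (hq x).mono_set fun u hu => ⟨hu.1.1, hu.2⟩)
          intro e he hee
          refine hCF (Fin.cons v e) ?_ (clique_cons hee fun s => (he s).2)
          intro s
          refine Fin.cases ?_ (fun s => ?_) s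
          · simpa using hv
          · simpa using (he s).1
        · intro L' D' q' hD' hMB' hq'
          exact hM q' V N G T L' D' hT hdeg hMB' (fun e he hee =>
            hCF e (fun s => hD' (he s)) hee) hq'
      by_contra hcon
      obtain ⟨e, he, hee, hcol⟩ := hF V N G T L X hctx 0 X subset_rfl hcon
      obtain ⟨c, _, w, hw, hw1, hw2⟩ := nonempty_of_not_col hcol
      refine hCF (Fin.cons w e) ?_ (clique_cons hee fun s => (hw1 s).symm)
      intro s
      refine Fin.cases ?_ (fun s => ?_) s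
      · simpa using hw
      · simpa using he s

end Pool.Agent.H430R3.SW
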