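import Mathlib

/-! Ramsey's theorem for pairs, with finitely many colours. -/

set_option autoImplicit false
set_option linter.unusedSectionVars false

namespace Pool.Agent.H430R3.SW

lemma prehom {α : Type} [Fintype α] [Nonempty α] (n : ℕ) : ∃ R : ℕ, ∀ (f : ℕ → ℕ → α)
    (S : Finset ℕ), R ≤ S.card → ∃ (g : Fin n → ℕ) (c : Fin n → α), StrictMono g ∧
      (∀ i, g i ∈ S) ∧ ∀ i j, i < j → f (g i) (g j) = c i := by
  classical
  induction n with
  | zero =>
    refine ⟨0, fun f S _ => ⟨Fin.elim0, Fin.elim0, ?_, ?_, ?_⟩⟩
    · intro i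
      exact i.elim0
    · intro i
      exact i.elim0
    · intro i
      exact i.elim0
  | succ n ih =>
    obtain ⟨R, hR⟩ := ih
    refine ⟨1 + Fintype.card α * R, fun f S hS => ?_⟩
    have hne : S.Nonempty := by
      rw [← Finset.card_pos]
      omega
    set x := S.min' hne with hx
    have hxS : x ∈ S := Finset.min'_mem S hne
    have hcard : Fintype.card α * R ≤ (S.erase x).card := by
      rw [Finset.card_erase_of_mem hxS]
      omega
    obtain ⟨a, _, ha⟩ := Finset.exists_le_card_fiber_of_mul_le_card_of_maps_to
      (s := S.erase x) (t := (Finset.univ : Finset α)) (f := fun y => f x y) (n := R)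
      (fun _ _ => Finset.mem_univ _) Finset.univ_nonempty (by simpa using hcard)
    obtain ⟨g, c, h1, h2, h3⟩ := hR f _ ha
    have hlt : ∀ i, x < g i := by
      intro i
      have h4 := h2 i
      simp only [Finset.mem_filter, Finset.mem_erase] at h4
      exact lt_of_le_of_ne (Finset.min'_le S _ h4.1.2) (Ne.symm h4.1.1)
    refine ⟨Fin.cons x g, Fin.cons a c, ?_, ?_, ?_⟩
    · intro i j
      refine Fin.cases ?_ (fun i => ?_) i <;> refine Fin.cases ?_ (fun j => ?_) j
      · intro h
        exact absurd h (lt_irrefl _)
      · intro _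
        simpa using hlt j
      · intro h
        exact absurd h (by simp)
      · intro h
        simp only [Fin.cons_succ]
        exact h1 (by simpa using h)
    · intro i
      refine Fin.cases ?_ (fun i => ?_) i
      · simpa using hxS
      · have h4 := h2 i
        simp only [Finset.mem_filter, Finset.mem_erase] at h4
        simpa using h4.1.2
    · intro i j
      refine Fin.cases ?_ (fun i => ?_) i <;> refine Fin.cases ?_ (fun j => ?_) j
      · intro h
        exact absurd h (lt_irrefl _)
      · intro _
        have h4 := h2 j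
        simp only [Finset.mem_filter, Finset.mem_erase] at h4
        simpa using h4.2
      · intro h
        exact absurd h (by simp)
      · intro h
        simp only [Fin.cons_succ]
        exact h3 i j (by simpa using h)

theorem ramsey {α : Type} [Fintype α] [Nonempty α] (s : ℕ) : ∃ r : ℕ, ∀ f : ℕ → ℕ → α,
    ∃ g : Fin s → ℕ, StrictMono g ∧ (∀ i, g i < r) ∧ ∃ a, ∀ i j, i < j → f (g i) (g j) = a := by
  classical
  obtain ⟨R, hR⟩ := prehom (α := α) (Fintype.card α * s)
  refine ⟨R, fun f => ?_⟩
  obtain ⟨g, c, h1, h2, h3⟩ := hR f (Finset.range R) (by simp)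
  obtain ⟨a, _, ha⟩ := Finset.exists_le_card_fiber_of_mul_le_card_of_maps_to
    (s := (Finset.univ : Finset (Fin (Fintype.card α * s)))) (t := (Finset.univ : Finset α))
    (f := c) (n := s) (fun _ _ => Finset.mem_univ _) Finset.univ_nonempty (by simp)
  obtain ⟨F, hF, hFc⟩ := Finset.exists_subset_card_eq ha
  have e := F.orderEmbOfFin hFc
  refine ⟨fun i => g (F.orderEmbOfFin hFc i), ?_, ?_, a, ?_⟩
  · intro i j hij
    exact h1 ((F.orderEmbOfFin hFc).strictMono hij)
  · intro i
    simpa using h2 (F.orderEmbOfFin hFc i)
  · intro i j hij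
    rw [h3 _ _ ((F.orderEmbOfFin hFc).strictMono hij)]
    have h4 := hF (F.orderEmbOfFin_mem hFc i)
    simpa using h4

end Pool.Agent.H430R3.SW
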