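import Pool.Agent.H430R3.Helly

/-! Sides of the edges of a tree; sides avoiding a set of nodes. -/

set_option autoImplicit false
set_option linter.unusedSectionVars false

namespace Pool.Agent.H430R3.SW

open Pool.Agent.Helper636.Bw

variable {N : Type} {T : SimpleGraph N}

lemma rch_excl (hT : T.IsTree) {a b z : N} (h : T.Adj a b) (h1 : Rch T a b z) (h2 : Rch T b a z) :
    False := by
  have h3 : (T.deleteEdges {s(a, b)}).Reachable b z := by
    have h4 : (T.deleteEdges {s(b, a)}).Reachable b z := h2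
    rwa [Sym2.eq_swap] at h4
  have h5 : (T.deleteEdges {s(a, b)}).Reachable a b := SimpleGraph.Reachable.trans h1 h3.symm
  exact rch_bridge hT.isAcyclic h h5

lemma rch_or (hT : T.IsTree) (a b z : N) : Rch T a b z ∨ Rch T b a z :=
  rch_cover hT.connected.preconnected a b z

lemma rch_not (hT : T.IsTree) {a b z : N} (h : T.Adj a b) : ¬ Rch T b a z ↔ Rch T a b z := by
  constructor
  · intro h1
    exact (rch_or hT a b z).resolve_right h1
  · intro h1 h2
    exact rch_excl hT h h1 h2

lemma rch_adj {x y c d : N} (h : T.Adj x y) (hne : s(x, y) ≠ s(c, d)) (h1 : Rch T c d x) :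
    Rch T c d y :=
  SimpleGraph.Reachable.trans h1 (SimpleGraph.Adj.reachable (adj_del.2 ⟨h, hne⟩))

lemma rch_refl (a b : N) : Rch T a b a := SimpleGraph.Reachable.refl a

/-- two nodes on the same side of `ba`, the end `c` of the edge `cd` being on the other side:
they are on the same side of `cd` -/
lemma rch_same {a b c d y z : N} (hy : Rch T b a y) (hz : Rch T b a z) (hc : ¬ Rch T b a c)
    (h : Rch T c d y) : Rch T c d z := by
  have h1 : (T.deleteEdges {s(b, a)}).Reachable y z := SimpleGraph.Reachable.trans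
    (SimpleGraph.Reachable.symm hy) hz
  rw [SimpleGraph.reachable_iff_reflTransGen] at h1
  induction h1 with
  | refl => exact h
  | @tail y' z' hyz hadj ih =>
    have hy' : Rch T b a y' := SimpleGraph.Reachable.trans hy
      ((SimpleGraph.reachable_iff_reflTransGen _ _).2 hyz)
    have h2 := ih hy'
    refine rch_adj (adj_del.1 hadj).1 ?_ h2
    intro he
    rw [Sym2.eq_iff] at he
    rcases he with ⟨he, _⟩ | ⟨_, he⟩
    · exact hc (he ▸ hy')
    · exact hc (he ▸ hz)

lemma rch_same' {a b c d y z : N} (hy : Rch T b a y) (hz : Rch T b a z) (hc : ¬ Rch T b a d)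
    (h : Rch T c d y) : Rch T c d z := by
  have h1 : (T.deleteEdges {s(b, a)}).Reachable y z := SimpleGraph.Reachable.trans
    (SimpleGraph.Reachable.symm hy) hz
  rw [SimpleGraph.reachable_iff_reflTransGen] at h1
  induction h1 with
  | refl => exact h
  | @tail y' z' hyz hadj ih =>
    have hy' : Rch T b a y' := SimpleGraph.Reachable.trans hy
      ((SimpleGraph.reachable_iff_reflTransGen _ _).2 hyz)
    have h2 := ih hy'
    refine rch_adj (adj_del.1 hadj).1 ?_ h2
    intro he
    rw [Sym2.eq_iff] at he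
    rcases he with ⟨_, he⟩ | ⟨he, _⟩
    · exact hc (he ▸ hz)
    · exact hc (he ▸ hy')

/-- the side of `b` of the edge `ab` avoids `S` -/
def Free (T : SimpleGraph N) (S : Set N) (a b : N) : Prop := T.Adj a b ∧ ∀ s ∈ S, Rch T a b s

/-- the nodes in no side avoiding `S` -/
def Core (T : SimpleGraph N) (S : Set N) : Set N := {x | ∀ a b, Free T S a b → Rch T a b x}

lemma core_not {S : Set N} (hT : T.IsTree) {x a b : N} (hx : x ∈ Core T S) (h : Free T S a b) :
    ¬ Rch T b a x := fun h1 => rch_excl hT h.1 (hx a b h) h1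

lemma exists_top [Finite N] (hT : T.IsTree) {S : Set N} (hS : S.Nonempty) {x : N}
    (hx : x ∉ Core T S) : ∃ a b, Free T S a b ∧ Rch T b a x ∧ a ∈ Core T S := by
  classical
  obtain ⟨s0, hs0⟩ := hS
  have hex : ∃ p : N × N, Free T S p.1 p.2 ∧ Rch T p.2 p.1 x := by
    simp only [Core, Set.mem_setOf_eq] at hx
    push Not at hx
    obtain ⟨a, b, h1, h2⟩ := hx
    exact ⟨(a, b), h1, (rch_or hT a b x).resolve_left h2⟩
  let W : N × N → ℕ := fun p => {z | Rch T p.1 p.2 z}.ncard
  obtain ⟨⟨a, b⟩, ⟨hfree, hr⟩, hmin⟩ := exists_minimalFor_of_wellFoundedLT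
    (fun p : N × N => Free T S p.1 p.2 ∧ Rch T p.2 p.1 x) W hex
  simp only at hfree hr hmin
  refine ⟨a, b, hfree, hr, ?_⟩
  intro c d hcd
  by_contra hnc
  have hd : Rch T d c a := (rch_or hT c d a).resolve_left hnc
  have has0 : s0 ≠ a := by
    rintro rfl
    exact rch_excl hT hcd.1 (hcd.2 _ hs0) hd
  obtain ⟨a', ha', hr'⟩ := exists_dir hT has0
  have hne : a' ≠ b := by
    rintro rfl
    exact rch_excl hT ha' (hfree.2 _ hs0) hr'
  have hfree' : Free T S a' a := by
    refine ⟨ha'.symm, ?_⟩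
    intro s hs
    -- `s0` and `s` are on the side of `c`, `a` is not
    have h1 : Rch T c d s0 := hcd.2 _ hs0
    have h2 : Rch T c d s := hcd.2 _ hs
    exact rch_same' h1 h2 hnc hr'
  -- the side of `b` is contained in the side of `a`
  have hsub : ∀ z, Rch T b a z → Rch T a a' z := fun z hz =>
    rch_sub hT.isAcyclic hfree.1 (Ne.symm hne) hz
  have hlt : {z | Rch T a' a z} ⊂ {z | Rch T a b z} := by
    refine ⟨?_, ?_⟩
    · intro z hz
      by_contra hcon
      have h3 : Rch T b a z := (rch_or hT a b z).resolve_left hcon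
      exact rch_excl hT ha' (hsub z h3) hz
    · intro hcon
      have h4 : a ∈ {z | Rch T a' a z} := hcon (rch_refl a b)
      exact rch_excl hT ha' (rch_refl a a') h4
  have h5 := Set.ncard_lt_ncard hlt (Set.toFinite _)
  have h6 := hmin (j := (a', a)) ⟨hfree', hsub x hr⟩ (le_of_lt h5)
  simp only [W] at h6
  omega

lemma top_unique (hT : T.IsTree) {S : Set N} (hS : S.Nonempty) {x a b a' b' : N}
    (h : Free T S a b) (ha : a ∈ Core T S) (hx : Rch T b a x) (h' : Free T S a' b')
    (ha' : a' ∈ Core T S) (hx' : Rch T b' a' x) : a = a' ∧ b = b' := by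
  by_cases he : s(a, b) = s(a', b')
  · rw [Sym2.eq_iff] at he
    rcases he with he | ⟨rfl, rfl⟩
    · exact he
    · obtain ⟨s0, hs0⟩ := hS
      exact absurd (h'.2 _ hs0) (fun h1 => rch_excl hT h.1 (h.2 _ hs0) h1)
  · exfalso
    -- `a` is on the side of `a'`, hence so is `b`
    have h1 : Rch T a' b' b := rch_adj h.1 he (ha a' b' h')
    -- `b`, `x` are on the side of `b` of `ab`, `a'` is not
    have h2 : ¬ Rch T b a a' := core_not hT ha' h
    have h3 : Rch T a' b' x := rch_same (rch_refl b a) hx h2 h1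
    exact rch_excl hT h'.1 h3 hx'

lemma top_side (hT : T.IsTree) {S : Set N} {x a b c d : N} (h : Free T S a b) (hcd : T.Adj c d)
    (hc : ∃ s ∈ S, Rch T c d s) (hd : ∃ s ∈ S, Rch T d c s) (hx : Rch T b a x) :
    (Rch T c d x ↔ Rch T c d a) := by
  have hne : s(a, b) ≠ s(c, d) := by
    intro he
    rw [Sym2.eq_iff] at he
    rcases he with ⟨rfl, rfl⟩ | ⟨rfl, rfl⟩
    · obtain ⟨s, hs, h1⟩ := hd
      exact rch_excl hT hcd (h.2 s hs) h1
    · obtain ⟨s, hs, h1⟩ := hc
      exact rch_excl hT hcd h1 (h.2 s hs)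
  have hne' : s(b, a) ≠ s(c, d) := by rwa [Sym2.eq_swap]
  have hab : Rch T c d b ↔ Rch T c d a :=
    ⟨fun h1 => rch_adj h.1.symm hne' h1, fun h1 => rch_adj h.1 hne h1⟩
  rw [← hab]
  by_cases h1 : Rch T b a c
  · by_cases h2 : Rch T b a d
    · exfalso
      obtain ⟨s, hs, hs1⟩ := hc
      obtain ⟨s', hs', hs'1⟩ := hd
      have h3 : ¬ Rch T a b c := fun h4 => rch_excl hT h.1 h4 h1
      exact rch_excl hT hcd (rch_same (h.2 s hs) (h.2 s' hs') h3 hs1) hs'1
    · exact ⟨fun h3 => rch_same' hx (rch_refl b a) h2 h3, fun h3 => rch_same' (rch_refl b a) hx h2 h3⟩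
  · exact ⟨fun h3 => rch_same hx (rch_refl b a) h1 h3, fun h3 => rch_same (rch_refl b a) hx h1 h3⟩

end Pool.Agent.H430R3.SW
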