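import Pool.Agent.H430R3.SW.Col
import Pool.Agent.H430R3.SW.Tree

/-! The separation lemma. -/

set_option autoImplicit false
set_option linter.unusedSectionVars false

namespace Pool.Agent.H430R3.SW

open Pool.Agent.Helper636.Bw

variable {V N : Type} {G : SimpleGraph V} {T : SimpleGraph N} {L : V → N} {X : Set V}

/-- every cut displayed by the tree has no bipartite induced matching of size `m + 1` inside `X` -/
def MB (G : SimpleGraph V) (T : SimpleGraph N) (L : V → N) (X : Set V) (m : ℕ) : Prop :=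
  ∀ a b, T.Adj a b → ¬ ∃ x y : Fin (m + 1) → V,
    (∀ i, x i ∈ X ∧ y i ∈ X ∧ Rch T a b (L (x i)) ∧ Rch T b a (L (y i))) ∧
    ∀ i j, G.Adj (x i) (y j) ↔ i = j

lemma MB.mono {X' : Set V} {m : ℕ} (h : MB G T L X m) (hX : X' ⊆ X) : MB G T L X' m := by
  rintro a b hab ⟨x, y, h1, h2⟩
  exact h a b hab ⟨x, y, fun i => ⟨hX (h1 i).1, hX (h1 i).2.1, (h1 i).2.2⟩, h2⟩

/-- domination across a cut by few vertices -/
lemma dom [Finite V] {m : ℕ} (hMB : MB G T L X m) {a b : N} (hab : T.Adj a b) {A B : Set V}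
    (hA : ∀ x ∈ A, x ∈ X ∧ Rch T a b (L x)) (hB : ∀ y ∈ B, y ∈ X ∧ Rch T b a (L y))
    (hdom : ∀ y ∈ B, ∃ x ∈ A, G.Adj x y) :
    ∃ A' : Finset V, (∀ x ∈ A', x ∈ A) ∧ A'.card ≤ m ∧ ∀ y ∈ B, ∃ x ∈ A', G.Adj x y := by
  classical
  have hex : ∃ A' : Finset V, (∀ x ∈ A', x ∈ A) ∧ ∀ y ∈ B, ∃ x ∈ A', G.Adj x y := by
    refine ⟨(Set.toFinite A).toFinset, by simp, ?_⟩
    intro y hy
    obtain ⟨x, hx, hxy⟩ := hdom y hy
    exact ⟨x, by simpa using hx, hxy⟩
  obtain ⟨A', ⟨h1, h2⟩, hmin⟩ := exists_minimalFor_of_wellFoundedLT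
    (fun A' : Finset V => (∀ x ∈ A', x ∈ A) ∧ ∀ y ∈ B, ∃ x ∈ A', G.Adj x y) Finset.card hex
  refine ⟨A', h1, ?_, h2⟩
  by_contra hbig
  push Not at hbig
  have hpriv : ∀ x : A', ∃ y ∈ B, G.Adj x y ∧ ∀ x' ∈ A', G.Adj x' y → x' = x := by
    rintro ⟨x, hx⟩
    by_contra hcon
    push Not at hcon
    have h3 : (A'.erase x).card < A'.card := Finset.card_erase_lt_of_mem hx
    have h4 := hmin (j := A'.erase x) ⟨fun z hz => h1 z (Finset.mem_of_mem_erase hz), by
      intro y hy
      obtain ⟨z, hz, hzy⟩ := h2 y hy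
      by_cases hzx : z = x
      · subst hzx
        obtain ⟨x', hx', hx'y, hne⟩ := hcon y hy hzy
        exact ⟨x', Finset.mem_erase.2 ⟨hne, hx'⟩, hx'y⟩
      · exact ⟨z, Finset.mem_erase.2 ⟨hzx, hz⟩, hzy⟩⟩ (le_of_lt h3)
    omega
  choose pr hpB hpadj hpun using hpriv
  obtain ⟨A'', hA'', hc⟩ := Finset.exists_subset_card_eq (s := A') (n := m + 1) hbig
  let e := (A''.equivFinOfCardEq hc).symm
  let x : Fin (m + 1) → A' := fun i => ⟨(e i : V), hA'' (e i).2⟩
  have hxinj : Function.Injective x := by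
    intro i j hij
    have h5 : (e i : V) = (e j : V) := by
      have h5' : (x i : V) = (x j : V) := congrArg (fun z : A' => (z : V)) hij
      exact h5'
    exact e.injective (Subtype.ext h5)
  apply hMB a b hab
  refine ⟨fun i => (x i : V), fun i => pr (x i), ?_, ?_⟩
  · intro i
    have h6 := hA (x i) (h1 _ (x i).2)
    have h7 := hB (pr (x i)) (hpB _)
    exact ⟨h6.1, h7.1, h6.2, h7.2⟩
  · intro i j
    constructor
    · intro hadj
      have h8 := hpun (x j) (x i) (x i).2 hadj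
      exact hxinj (Subtype.ext h8)
    · rintro rfl
      exact hpadj _

/-- the vertices of one side having a neighbour on the other side -/
lemma bd [Finite V] {m t : ℕ} (hMB : MB G T L X m)
    (ht : ∀ v ∈ X, Col G {u ∈ X | G.Adj v u} t) {a b : N} (hab : T.Adj a b) :
    Col G {y ∈ X | Rch T b a (L y) ∧ ∃ x ∈ X, Rch T a b (L x) ∧ G.Adj x y} (m * t) := by
  obtain ⟨A', h1, h2, h3⟩ := dom (A := {x ∈ X | Rch T a b (L x)})
    (B := {y ∈ X | Rch T b a (L y) ∧ ∃ x ∈ X, Rch T a b (L x) ∧ G.Adj x y}) hMB hab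
    (fun x hx => hx) (fun y hy => ⟨hy.1, hy.2.1⟩)
    (fun y hy => by
      obtain ⟨x, hx, hx1, hx2⟩ := hy.2.2
      exact ⟨x, ⟨hx, hx1⟩, hx2⟩)
  refine ((col_biUnion A' (fun x => {u ∈ X | G.Adj x u}) t
    (fun x hx => ht x (h1 x hx).1)).mono (Nat.mul_le_mul_right _ h2)).mono_set ?_
  intro y hy
  obtain ⟨x, hx, hxy⟩ := h3 y hy
  simp only [Set.mem_iUnion, exists_prop]
  exact ⟨x, hx, hy.1, hxy⟩

theorem sepL [Finite V] [Finite N] (hT : T.IsTree) (hdeg : ∀ x, (T.neighborSet x).ncard ≤ 3)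
    {m' t q : ℕ} {M : ℕ → ℕ} (hMB : MB G T L X (m' + 1))
    (ht : ∀ v ∈ X, Col G {u ∈ X | G.Adj v u} t)
    (hq : ∀ x, Col G {v ∈ X | L v = x} q)
    (hM : ∀ (L' : V → N) (D' : Set V) (q' : ℕ), D' ⊆ X → MB G T L' D' m' →
      (∀ x, Col G {v ∈ D' | L' v = x} q') → Col G D' (M q'))
    {Q D : Set V} (hQX : Q ⊆ X) (hQ : Q.Nonempty) (hconn : Conn G Q) (hDX : D ⊆ X)
    (hanti : ∀ u ∈ Q, ∀ v ∈ D, ¬ G.Adj u v) {h : ℕ}
    (hfree : ∀ a b, T.Adj a b → (∀ u ∈ Q, Rch T a b (L u)) →
      Col G {v ∈ D | Rch T b a (L v) ∧ ∀ x ∈ X, Rch T a b (L x) → ¬ G.Adj x v} h) :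
    Col G D (M (q + 3 * ((m' + 1) * t)) + ((m' + 1) * t + h)) := by
  classical
  set S : Set N := L '' Q with hS
  have hSne : S.Nonempty := hQ.image L
  have htop : ∀ x : N, ∃ p : N × N, x ∉ Core T S → Free T S p.1 p.2 ∧ Rch T p.2 p.1 x ∧
      p.1 ∈ Core T S := by
    intro x
    by_cases hx : x ∈ Core T S
    · exact ⟨(x, x), fun h => absurd hx h⟩
    · obtain ⟨a, b, h1⟩ := exists_top hT hSne hx
      exact ⟨(a, b), fun _ => h1⟩
  choose tp htp using htop
  -- the two parts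
  let D1 : Set V := {v ∈ D | L v ∉ Core T S ∧
    ∀ u ∈ D, G.Adj u v → Rch T (tp (L v)).2 (tp (L v)).1 (L u)}
  let D0 : Set V := {v ∈ D | L v ∈ Core T S ∨ ∃ u ∈ D, G.Adj u v ∧
    ¬ Rch T (tp (L v)).2 (tp (L v)).1 (L u)}
  have hcov : D ⊆ D0 ∪ D1 := by
    intro v hv
    by_cases h1 : L v ∈ Core T S
    · exact Or.inl ⟨hv, Or.inl h1⟩
    · by_cases h2 : ∃ u ∈ D, G.Adj u v ∧ ¬ Rch T (tp (L v)).2 (tp (L v)).1 (L u)
      · exact Or.inl ⟨hv, Or.inr h2⟩
      · push Not at h2
        exact Or.inr ⟨hv, h1, h2⟩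
  -- colouring of D1
  have hside : ∀ a b, Free T S a b → Col G {v ∈ D | Rch T b a (L v)} ((m' + 1) * t + h) := by
    intro a b hab
    have h1 := hfree a b hab.1 (fun u hu => hab.2 _ (Set.mem_image_of_mem L hu))
    refine ((bd hMB ht hab.1).union h1).mono_set ?_
    intro v hv
    by_cases h2 : ∃ x ∈ X, Rch T a b (L x) ∧ G.Adj x v
    · exact Or.inl ⟨hDX hv.1, hv.2, h2⟩
    · push Not at h2
      exact Or.inr ⟨hv.1, hv.2, h2⟩
  have hcol : ∀ a b, ∃ f : V → ℕ, Free T S a b → (∀ v ∈ {v ∈ D | Rch T b a (L v)},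
      f v < (m' + 1) * t + h) ∧ ∀ u ∈ {v ∈ D | Rch T b a (L v)}, ∀ v ∈ {v ∈ D | Rch T b a (L v)},
      G.Adj u v → f u ≠ f v := by
    intro a b
    by_cases hab : Free T S a b
    · obtain ⟨f, h1, h2⟩ := hside a b hab
      exact ⟨f, fun _ => ⟨h1, h2⟩⟩
    · exact ⟨fun _ => 0, fun h => absurd h hab⟩
  choose fc hfc using hcol
  have hD1 : Col G D1 ((m' + 1) * t + h) := by
    refine ⟨fun v => fc (tp (L v)).1 (tp (L v)).2 v, ?_, ?_⟩
    · intro v hv
      obtain ⟨h1, h2, h3⟩ := htp (L v) hv.2.1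
      exact (hfc _ _ h1).1 v ⟨hv.1, h2⟩
    · intro u hu v hv huv
      obtain ⟨h1, h2, h3⟩ := htp (L v) hv.2.1
      obtain ⟨g1, g2, g3⟩ := htp (L u) hu.2.1
      have h4 := hv.2.2 u hu.1 huv
      obtain ⟨e1, e2⟩ := top_unique hT hSne g1 g3 g2 h1 h3 h4
      simp only
      rw [e1, e2]
      exact (hfc _ _ h1).2 u ⟨hu.1, h4⟩ v ⟨hv.1, h2⟩ huv
  -- colouring of D0
  let L0 : V → N := fun v => if L v ∈ Core T S then L v else (tp (L v)).1
  have hL0 : ∀ v, L0 v ∈ Core T S := by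
    intro v
    simp only [L0]
    split_ifs with h1
    · exact h1
    · exact (htp (L v) h1).2.2
  have hMB0 : MB G T L0 D0 m' := by
    rintro a b hab ⟨x, y, h1, h2⟩
    by_cases hf : Free T S a b
    · exact core_not hT (hL0 (y 0)) hf (h1 0).2.2.2
    · by_cases hf' : Free T S b a
      · exact core_not hT (hL0 (x 0)) hf' (h1 0).2.2.1
      · -- a crossing edge of Q
        have ha : ∃ s ∈ S, Rch T a b s := by
          by_contra hcon
          push Not at hcon
          exact hf' ⟨hab.symm, fun s hs => (rch_or hT b a s).resolve_right (hcon s hs)⟩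
        have hb : ∃ s ∈ S, Rch T b a s := by
          by_contra hcon
          push Not at hcon
          exact hf ⟨hab, fun s hs => (rch_or hT a b s).resolve_right (hcon s hs)⟩
        have hLL : ∀ v, Rch T a b (L0 v) → Rch T a b (L v) := by
          intro v hv
          simp only [L0] at hv
          split_ifs at hv with h3
          · exact hv
          · obtain ⟨g1, g2, g3⟩ := htp (L v) h3
            exact (top_side hT g1 hab ha hb g2).2 hv
        have hLL' : ∀ v, Rch T b a (L0 v) → Rch T b a (L v) := by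
          intro v hv
          simp only [L0] at hv
          split_ifs at hv with h3
          · exact hv
          · obtain ⟨g1, g2, g3⟩ := htp (L v) h3
            exact (top_side hT g1 hab.symm hb ha g2).2 hv
        obtain ⟨_, ⟨q1, hq1, rfl⟩, hq1'⟩ := ha
        obtain ⟨_, ⟨q2, hq2, rfl⟩, hq2'⟩ := hb
        obtain ⟨u, hu, w, hw, huw, hu1, hw1⟩ := hconn (fun v => Rch T a b (L v)) ⟨q1, hq1, hq1'⟩
          ⟨q2, hq2, fun h => rch_excl hT hab h hq2'⟩
        have hw2 : Rch T b a (L w) := (rch_or hT a b (L w)).resolve_left hw1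
        apply hMB a b hab
        refine ⟨Fin.cons u x, Fin.cons w y, ?_, ?_⟩
        · intro i
          refine Fin.cases ?_ (fun i => ?_) i
          · simp only [Fin.cons_zero]
            exact ⟨hQX hu, hQX hw, hu1, hw2⟩
          · simp only [Fin.cons_succ]
            obtain ⟨g1, g2, g3, g4⟩ := h1 i
            exact ⟨hDX g1.1, hDX g2.1, hLL _ g3, hLL' _ g4⟩
        · intro i j
          refine Fin.cases ?_ (fun i => ?_) i <;> refine Fin.cases ?_ (fun j => ?_) j
          · simpa using huw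
          · simp only [Fin.cons_zero, Fin.cons_succ]
            constructor
            · intro h3
              exact absurd h3 (hanti u hu _ (h1 j).2.1.1)
            · intro h3
              exact absurd h3.symm (Fin.succ_ne_zero j)
          · simp only [Fin.cons_zero, Fin.cons_succ]
            constructor
            · intro h3
              exact absurd h3.symm (hanti w hw _ (h1 i).1.1)
            · intro h3
              exact absurd h3 (Fin.succ_ne_zero i)
          · simp only [Fin.cons_succ, Fin.succ_inj]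
            exact h2 i j
  have hD0 : Col G D0 (M (q + 3 * ((m' + 1) * t))) := by
    apply hM L0 D0 _ (fun v hv => hDX hv.1) hMB0
    intro x
    have hfin : (T.neighborSet x).Finite := Set.toFinite _
    have hcard : hfin.toFinset.card ≤ 3 := by
      rw [← Set.ncard_eq_toFinset_card _ hfin]
      exact hdeg x
    have h1 : Col G (⋃ b ∈ hfin.toFinset, {y ∈ X | Rch T b x (L y) ∧
        ∃ u ∈ X, Rch T x b (L u) ∧ G.Adj u y}) (3 * ((m' + 1) * t)) := by
      refine (col_biUnion hfin.toFinset _ ((m' + 1) * t) ?_).mono (Nat.mul_le_mul_right _ hcard)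
      intro b hb
      have hxb : T.Adj x b := by simpa using hb
      exact bd hMB ht hxb
    refine ((hq x).union h1).mono_set ?_
    rintro v ⟨⟨hv, hv'⟩, hvx⟩
    simp only [L0] at hvx
    split_ifs at hvx with h3
    · exact Or.inl ⟨hDX hv, hvx⟩
    · right
      obtain ⟨g1, g2, g3⟩ := htp (L v) h3
      rcases hv' with hv' | ⟨u, hu, huv, hu'⟩
      · exact absurd hv' h3
      · simp only [Set.mem_iUnion, exists_prop]
        refine ⟨(tp (L v)).2, ?_, hDX hv, ?_, u, hDX hu, ?_, huv⟩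
        · simp only [Set.Finite.mem_toFinset, SimpleGraph.mem_neighborSet]
          rw [← hvx]
          exact g1.1
        · rw [← hvx]
          exact g2
        · rw [← hvx]
          exact (rch_or hT _ _ _).resolve_right hu'
  refine (hD0.union hD1).mono_set hcov

end Pool.Agent.H430R3.SW
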