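import Pool.Agent.H430R3.SW.A1
import Pool.Agent.H430R3.SW.Ramsey

/-! The stages: from `κ`-cliques to `κ + 1`-cliques. -/

set_option autoImplicit false
set_option linter.unusedSectionVars false

namespace Pool.Agent.H430R3.SW

open Pool.Agent.Helper636.Bw

variable {V N : Type} {G : SimpleGraph V} {T : SimpleGraph N} {L : V → N} {X : Set V}

/-- the standing assumptions -/
structure Ctx (G : SimpleGraph V) (T : SimpleGraph N) (L : V → N) (X : Set V) (m' t q : ℕ)
    (M : ℕ → ℕ) : Prop where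
  tree : T.IsTree
  deg : ∀ x, (T.neighborSet x).ncard ≤ 3
  mb : MB G T L X (m' + 1)
  nb : ∀ v ∈ X, Col G {u ∈ X | G.Adj v u} t
  fib : ∀ x, Col G {v ∈ X | L v = x} q
  low : ∀ (L' : V → N) (D' : Set V) (q' : ℕ), D' ⊆ X → MB G T L' D' m' →
      (∀ x, Col G {v ∈ D' | L' v = x} q') → Col G D' (M q')

/-- splitting by types -/
lemma split_types {α : Type} [Fintype α] [Nonempty α] {b : ℕ} (R : ℕ → α → V → Prop) (k : ℕ) :
    ∀ (C : Set V), (∀ i, ∀ c ∈ C, ∃ a, R i a c) → ¬ Col G C (Fintype.card α ^ k * b) →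
    ∃ C' ⊆ C, ¬ Col G C' b ∧ ∃ ty : ℕ → α, ∀ i < k, ∀ c ∈ C', R i (ty i) c := by
  classical
  induction k with
  | zero =>
    intro C _ hC
    refine ⟨C, subset_rfl, by simpa using hC, fun _ => Classical.arbitrary α, ?_⟩
    intro i hi
    exact absurd hi (Nat.not_lt_zero _)
  | succ k ih =>
    intro C hR hC
    have e : Fintype.card α ^ (k + 1) * b = Fintype.card α * (Fintype.card α ^ k * b) := by
      rw [pow_succ]
      ring
    rw [e] at hC
    obtain ⟨a, _, ha⟩ := exists_part (Finset.univ : Finset α) (fun a => {c | R k a c})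
      (n := Fintype.card α) (by simp) (fun v hv => by
        obtain ⟨a, ha⟩ := hR k v hv
        exact ⟨a, Finset.mem_univ _, ha⟩) hC
    obtain ⟨C', h1, h2, ty, h3⟩ := ih (C ∩ {c | R k a c}) (fun i c hc => hR i c hc.1) ha
    refine ⟨C', h1.trans Set.inter_subset_left, h2, fun i => if i = k then a else ty i, ?_⟩
    intro i hi c hc
    by_cases hik : i = k
    · subst hik
      simp only [if_true]
      exact (h1 hc).2
    · simp only [if_neg hik]
      exact h3 i (by omega) c hc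

/-- removing small sets -/
lemma remove {ι : Type} (I : Finset ι) (B : ι → Set V) {C : Set V} {h b n : ℕ}
    (hB : ∀ i ∈ I, Col G (B i) h) (hn : I.card ≤ n) (hC : ¬ Col G C (n * h + b)) :
    ¬ Col G {c ∈ C | ∀ i ∈ I, c ∉ B i} b := by
  refine not_col_of_union hC (A := ⋃ i ∈ I, B i) ?_
    ((col_biUnion I B h hB).mono (Nat.mul_le_mul_right _ hn))
  intro c hc
  by_cases h : ∃ i ∈ I, c ∈ B i
  · obtain ⟨i, hi, hci⟩ := h
    left
    simp only [Set.mem_iUnion, exists_prop]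
    exact ⟨i, hi, hci⟩
  · push Not at h
    exact Or.inr ⟨hc, h⟩

def itN (A m t : ℕ) : ℕ → ℕ → ℕ
  | 0, b => b
  | l + 1, b => A + (m * t + m * itN A m t l b)

/-- finding the vertices `u` for all pairs of the last type -/
lemma alpha_iter [Finite V] [Finite N] {m' t q : ℕ} {M : ℕ → ℕ} (hc : Ctx G T L X m' t q M)
    {P : ℕ → Prop} {Q : Set V} {U : ℕ → Set V} (hQX : Q ⊆ X) (hQ : Q.Nonempty)
    (hconn : Conn G Q) (hUX : ∀ i, P i → U i ⊆ X)
    (hUQ : ∀ i, P i → ∀ u ∈ U i, ∃ x ∈ Q, G.Adj u x) {b : ℕ} (l : ℕ) :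
    ∀ (C W : Set V), C ⊆ X → W ⊆ X → (∀ u ∈ Q, ∀ v ∈ C, ¬ G.Adj u v) →
      (∀ i, P i → ∀ u ∈ U i, ∀ v ∈ C, ¬ G.Adj u v) →
      (∀ i, P i → ∀ w ∈ W, ∃ u ∈ U i, G.Adj u w) → (∀ c ∈ C, ∃ w ∈ W, G.Adj w c) →
      ¬ Col G C (itN (M (q + 3 * ((m' + 1) * t))) (m' + 1) t l b) →
      ∃ C' ⊆ C, ∃ W' ⊆ W, ∃ u : ℕ → V, (∀ c ∈ C', ∃ w ∈ W', G.Adj w c) ∧ ¬ Col G C' b ∧
        ∀ i < l, P i → u i ∈ U i ∧ ∀ w ∈ W', G.Adj (u i) w := by
  classical
  induction l with
  | zero =>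
    intro C W hCX hWX h1 h2 h3 h4 h5
    obtain ⟨v, _⟩ := hQ
    refine ⟨C, subset_rfl, W, subset_rfl, fun _ => v, h4, h5, ?_⟩
    intro i hi
    exact absurd hi (Nat.not_lt_zero _)
  | succ l ih =>
    intro C W hCX hWX h1 h2 h3 h4 h5
    by_cases hP : P l
    · obtain ⟨u0, hu0, hcol⟩ := sepDom (Q := Q ∪ U l) (D := C) (U := U l) (W := W) hc.tree hc.deg
        hc.mb hc.nb hc.fib hc.low (Set.union_subset hQX (hUX l hP)) (hQ.mono Set.subset_union_left)
        (hconn.union (hUQ l hP)) hCX (by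
          rintro u (hu | hu) v hv
          · exact h1 u hu v hv
          · exact h2 l hP u hu v hv) Set.subset_union_right hWX (h3 l hP) h4 h5
      obtain ⟨C', g1, W', g2, u, g3, g4, g5⟩ := ih {c ∈ C | ∃ w ∈ W, G.Adj u0 w ∧ G.Adj w c}
        {w ∈ W | G.Adj u0 w} (fun c hc => hCX hc.1) (fun w hw => hWX hw.1)
        (fun u hu v hv => h1 u hu v hv.1) (fun i hi u hu v hv => h2 i hi u hu v hv.1)
        (fun i hi w hw => h3 i hi w hw.1) (fun c hc => by
          obtain ⟨_, w, hw, h6, h7⟩ := hc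
          exact ⟨w, ⟨hw, h6⟩, h7⟩) hcol
      refine ⟨C', g1.trans (fun c hc => hc.1), W', g2.trans (fun w hw => hw.1),
        fun i => if i = l then u0 else u i, g3, g4, ?_⟩
      intro i hi hPi
      by_cases hil : i = l
      · subst hil
        simp only [if_true]
        exact ⟨hu0, fun w hw => (g2 hw).2⟩
      · simp only [if_neg hil]
        exact g5 i (by omega) hPi
    · have h6 : ¬ Col G C (itN (M (q + 3 * ((m' + 1) * t))) (m' + 1) t l b) := by
        intro h7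
        apply h5
        refine h7.mono ?_
        simp only [itN]
        have : itN (M (q + 3 * ((m' + 1) * t))) (m' + 1) t l b ≤
          (m' + 1) * itN (M (q + 3 * ((m' + 1) * t))) (m' + 1) t l b :=
            Nat.le_mul_of_pos_left _ (Nat.succ_pos _)
        omega
      obtain ⟨C', g1, W', g2, u, g3, g4, g5⟩ := ih C W hCX hWX h1 h2 h3 h4 h6
      refine ⟨C', g1, W', g2, u, g3, g4, ?_⟩
      intro i hi hPi
      by_cases hil : i = l
      · subst hil
        exact absurd hPi hP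
      · exact g5 i (by omega) hPi

/-- the state after `k` stages -/
structure St (G : SimpleGraph V) (X' : Set V) (κ k b : ℕ) where
  Q : Set V
  C : Set V
  e : ℕ → Fin κ → V
  Y : ℕ → Set V
  tp : ℕ → ℕ → Option (Fin κ)
  u : ℕ → ℕ → V
  hQ : Q ⊆ X'
  hQ0 : k = 0 → Q = ∅
  hconn : Conn G Q
  hC : C ⊆ X'
  hcol : ¬ Col G C b
  hanti : ∀ x ∈ Q, ∀ c ∈ C, ¬ G.Adj x c
  he : ∀ i < k, ∀ s, e i s ∈ Q
  hee : ∀ i < k, ∀ s s', s ≠ s' → G.Adj (e i s) (e i s')
  hYX : ∀ i < k, Y i ⊆ X'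
  hYi : ∀ i < k, ∀ y ∈ Y i, ∀ y' ∈ Y i, ¬ G.Adj y y'
  hYe : ∀ i < k, ∀ y ∈ Y i, ∀ s, G.Adj (e i s) y
  hCY : ∀ i < k, ∀ c ∈ C, ∃ y ∈ Y i, G.Adj y c
  hd : ∀ i j, i < j → j < k → ∀ s, ∀ y ∈ Y j, ¬ G.Adj (e i s) y
  hs : ∀ i j, i < j → j < k → ∀ s, tp i j = some s → ∀ y ∈ Y i, ¬ G.Adj (e j s) y
  hn1 : ∀ i j, i < j → j < k → tp i j = none → u i j ∈ Q
  hn2 : ∀ i j, i < j → j < k → tp i j = none → ∀ y ∈ Y j, G.Adj (u i j) y
  hn3 : ∀ i j, i < j → j < k → tp i j = none → ∀ y ∈ Y i, ¬ G.Adj (u i j) y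
  hn4 : ∀ i j l, i < j → j < l → l < k → tp i j = none → ∀ y ∈ Y l, ¬ G.Adj (u i j) y
  hn5 : ∀ l i j, l < i → i < j → j < k → tp l i = none → tp i j = none →
    ∀ y ∈ Y l, ¬ G.Adj (u i j) y
  hn6 : ∀ i j, i < j → j < k → tp i j = none → ∀ y ∈ Y i, ∀ s, G.Adj (e j s) y

/-- extending the connected set -/
lemma ext_conn {X' : Set V} {κ k b : ℕ} (st : St G X' (κ + 1) k b) {K : Fin (κ + 1) → V}
    (hK : ∀ s, K s ∈ st.C) (hKK : ∀ s s', s ≠ s' → G.Adj (K s) (K s')) :
    ∃ Q1 : Set V, st.Q ⊆ Q1 ∧ Q1 ⊆ X' ∧ Conn G Q1 ∧ (∀ s, K s ∈ Q1) ∧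
      ∃ Z : Finset V, Z.card ≤ κ + 2 ∧ (∀ z ∈ Z, z ∈ X') ∧ ∀ z ∈ Q1, z ∈ st.Q ∨ z ∈ Z := by
  classical
  have hKc : Conn G ({K 0} ∪ Set.range K) := by
    have h1 : Conn G ({K 0} ∪ {v | ∃ s, s ≠ 0 ∧ v = K s}) := by
      refine (conn_singleton (K 0)).union ?_
      rintro _ ⟨s, hs, rfl⟩
      exact ⟨K 0, rfl, hKK s 0 hs⟩
    have e : {K 0} ∪ Set.range K = {K 0} ∪ {v | ∃ s, s ≠ 0 ∧ v = K s} := by
      ext v
      constructor
      · rintro (h | ⟨s, rfl⟩)
        · exact Or.inl h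
        · by_cases hs : s = 0
          · subst hs
            exact Or.inl rfl
          · exact Or.inr ⟨s, hs, rfl⟩
      · rintro (h | ⟨s, _, rfl⟩)
        · exact Or.inl h
        · exact Or.inr ⟨s, rfl⟩
    rw [e]
    exact h1
  have hZ : ∀ y, (Finset.univ.image K ∪ {y}).card ≤ κ + 2 := by
    intro y
    refine (Finset.card_union_le _ _).trans ?_
    have h1 : (Finset.univ.image K).card ≤ κ + 1 := by
      refine Finset.card_image_le.trans ?_
      simp
    simp only [Finset.card_singleton]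
    omega
  rcases Nat.eq_zero_or_pos k with hk | hk
  · refine ⟨{K 0} ∪ Set.range K, by rw [st.hQ0 hk]; exact Set.empty_subset _, ?_, hKc,
      fun s => Or.inr ⟨s, rfl⟩, Finset.univ.image K ∪ {K 0}, hZ _, ?_, ?_⟩
    · rintro _ (rfl | ⟨s, rfl⟩)
      · exact st.hC (hK 0)
      · exact st.hC (hK s)
    · intro z hz
      simp only [Finset.mem_union, Finset.mem_image, Finset.mem_univ, true_and,
        Finset.mem_singleton] at hz
      rcases hz with ⟨s, rfl⟩ | rfl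
      · exact st.hC (hK s)
      · exact st.hC (hK 0)
    · intro z hz
      right
      simp only [Finset.mem_union, Finset.mem_image, Finset.mem_univ, true_and,
        Finset.mem_singleton]
      rcases hz with hz | ⟨s, rfl⟩
      · exact Or.inr hz
      · exact Or.inl ⟨s, rfl⟩
  · obtain ⟨y0, hy0, hy0K⟩ := st.hCY 0 hk _ (hK 0)
    have hc1 : Conn G (st.Q ∪ {y0}) := by
      refine st.hconn.union ?_
      rintro _ rfl
      exact ⟨st.e 0 0, st.he 0 hk 0, (st.hYe 0 hk _ hy0 0).symm⟩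
    have hc2 : Conn G ((st.Q ∪ {y0}) ∪ {K 0}) := by
      refine hc1.union ?_
      rintro _ rfl
      exact ⟨y0, Or.inr rfl, hy0K.symm⟩
    have hc3 : Conn G (((st.Q ∪ {y0}) ∪ {K 0}) ∪ Set.range K) := by
      refine hc2.union ?_
      rintro _ ⟨s, rfl⟩
      by_cases hs : s = 0
      · subst hs
        exact ⟨y0, Or.inl (Or.inr rfl), hy0K.symm⟩
      · exact ⟨K 0, Or.inr rfl, hKK s 0 hs⟩
    refine ⟨_, fun v hv => Or.inl (Or.inl (Or.inl hv)), ?_, hc3, fun s => Or.inr ⟨s, rfl⟩,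
      Finset.univ.image K ∪ {y0}, hZ _, ?_, ?_⟩
    · rintro v (((hv | rfl) | rfl) | ⟨s, rfl⟩)
      · exact st.hQ hv
      · exact st.hYX 0 hk hy0
      · exact st.hC (hK 0)
      · exact st.hC (hK s)
    · intro z hz
      simp only [Finset.mem_union, Finset.mem_image, Finset.mem_univ, true_and,
        Finset.mem_singleton] at hz
      rcases hz with ⟨s, rfl⟩ | rfl
      · exact st.hC (hK s)
      · exact st.hYX 0 hk hy0
    · intro z hz
      simp only [Finset.mem_union, Finset.mem_image, Finset.mem_univ, true_and,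
        Finset.mem_singleton]
      rcases hz with ((hz | rfl) | rfl) | ⟨s, rfl⟩
      · exact Or.inl hz
      · exact Or.inr (Or.inr rfl)
      · exact Or.inr (Or.inl ⟨0, rfl⟩)
      · exact Or.inr (Or.inl ⟨s, rfl⟩)

/-- the number needed before stage `k` -/
def NN (F : ℕ → ℕ) (A m t κ h0 k b : ℕ) : ℕ :=
  2 ^ k * F ((κ + 2) * t + t * ((κ + 2) ^ k * (h0 + itN A m t k (k * k * h0 + b))))

theorem step [Finite V] [Finite N] {m' t q : ℕ} {M : ℕ → ℕ} (hc : Ctx G T L X m' t q M)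
    {X' : Set V} (hX' : X' ⊆ X) {κ h0 : ℕ} {F : ℕ → ℕ}
    (hAK : ∀ (h : ℕ) (X'' : Set V), X'' ⊆ X → ¬ Col G X'' (F h) → ∃ e : Fin (κ + 1) → V,
      (∀ s, e s ∈ X'') ∧ (∀ s s', s ≠ s' → G.Adj (e s) (e s')) ∧
      ¬ Col G {c ∈ X'' | ∃ w ∈ X'', (∀ s, G.Adj (e s) w) ∧ G.Adj w c} h)
    (hH : ∀ (e : Fin (κ + 1) → V) (v : V), (∀ s, e s ∈ X') → v ∈ X' →
      (∀ s s', s ≠ s' → G.Adj (e s) (e s')) → (∀ s, G.Adj (e s) v) →
      Col G {c ∈ X' | ∃ w ∈ X', (∀ s, G.Adj (e s) w) ∧ G.Adj v w ∧ G.Adj w c} h0)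
    {k b : ℕ} (st : St G X' (κ + 1) k (NN F (M (q + 3 * ((m' + 1) * t))) (m' + 1) t κ h0 k b)) :
    Nonempty (St G X' (κ + 1) (k + 1) b) := by
  classical
  have hCX : st.C ⊆ X := st.hC.trans hX'
  -- light and heavy
  obtain ⟨C0, hC0, hC0col, lt, hlt⟩ := split_types (α := Bool)
    (fun i a v => a = true ↔ Col G {c ∈ st.C | ∃ y ∈ st.Y i, G.Adj y v ∧ G.Adj y c} h0) k st.C
    (fun i c hc => by
      by_cases h : Col G {c' ∈ st.C | ∃ y ∈ st.Y i, G.Adj y c ∧ G.Adj y c'} h0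
      · exact ⟨true, by simp [h]⟩
      · exact ⟨false, by simp [h]⟩) (by
        rw [Fintype.card_bool]
        exact st.hcol)
  -- the clique
  obtain ⟨K, hK, hKK, hKcol⟩ := hAK _ C0 (hC0.trans hCX) hC0col
  have hKC : ∀ s, K s ∈ st.C := fun s => hC0 (hK s)
  obtain ⟨Q1, hQQ1, hQ1X, hQ1c, hKQ1, Z, hZ, hZX, hQ1Z⟩ := ext_conn st hKC hKK
  -- anticomplete
  set D := {c ∈ C0 | ∃ w ∈ C0, (∀ s, G.Adj (K s) w) ∧ G.Adj w c} with hD
  have hD1 := remove Z (fun z => {u ∈ X | G.Adj z u}) (fun z hz => hc.nb z (hX' (hZX z hz))) hZ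
    hKcol
  set D1 := {c ∈ D | ∀ z ∈ Z, c ∉ {u ∈ X | G.Adj z u}} with hD1'
  -- the independent class
  obtain ⟨Yk, hYk, hYki, hD2⟩ := exists_class (W := {w ∈ C0 | ∀ s, G.Adj (K s) w}) (D := D1)
    ((hc.nb (K 0) (hX' (st.hC (hKC 0)))).mono_set (fun w hw => ⟨hCX (hC0 hw.1), hw.2 0⟩))
    (fun c hc => by
      obtain ⟨⟨_, w, hw, h1, h2⟩, _⟩ := hc
      exact ⟨w, ⟨hw, h1⟩, h2⟩) hD1
  set D2 := {c ∈ D1 | ∃ w ∈ Yk, G.Adj w c} with hD2'
  -- the types
  let R : ℕ → Option (Fin (κ + 1)) → V → Prop := fun i a c => match a with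
    | none => ∀ y ∈ st.Y i, G.Adj y c → ∀ s, G.Adj (K s) y
    | some s => ∃ y ∈ st.Y i, G.Adj y c ∧ ¬ G.Adj (K s) y
  obtain ⟨D3, hD3, hD3col, ty, hty⟩ := split_types R k D2 (fun i c hc => by
      by_cases h : ∀ y ∈ st.Y i, G.Adj y c → ∀ s, G.Adj (K s) y
      · exact ⟨none, h⟩
      · push Not at h
        obtain ⟨y, hy, hyc, s, hs⟩ := h
        exact ⟨some s, y, hy, hyc, hs⟩) (by
        simp only [Fintype.card_option, Fintype.card_fin]
        exact hD2)
  have hD3C : D3 ⊆ st.C := fun c hc => hC0 (hD3 hc).1.1.1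
  have hYkC : Yk ⊆ C0 := fun w hw => (hYk hw).1
  have hnone : ∀ i < k, ty i = none → ∀ c ∈ D3, ∀ y ∈ st.Y i, G.Adj y c → ∀ s, G.Adj (K s) y := by
    intro i hi h c hc
    have := hty i hi c hc
    rw [h] at this
    exact this
  have hsome : ∀ i < k, ∀ s, ty i = some s → ∀ c ∈ D3, ∃ y ∈ st.Y i, G.Adj y c ∧
      ¬ G.Adj (K s) y := by
    intro i hi s h c hc
    have := hty i hi c hc
    rw [h] at this
    exact this
  -- type `none` is heavy
  have hheavy : ∀ i < k, ty i = none → ∀ w ∈ Yk, ∃ y ∈ st.Y i, (∃ s, ¬ G.Adj (K s) y) ∧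
      G.Adj y w := by
    intro i hi h w hw
    by_contra hcon
    push Not at hcon
    have h1 : ¬ Col G {c ∈ st.C | ∃ y ∈ st.Y i, G.Adj y (K 0) ∧ G.Adj y c} h0 := by
      intro h2
      apply hD3col
      refine (h2.mono_set ?_).mono (Nat.le_add_right _ _)
      intro c hc
      obtain ⟨y, hy, hyc⟩ := st.hCY i hi c (hD3C hc)
      exact ⟨hD3C hc, y, hy, (hnone i hi h c hc y hy hyc 0).symm, hyc⟩
    have h2 : ¬ Col G {c ∈ st.C | ∃ y ∈ st.Y i, G.Adj y w ∧ G.Adj y c} h0 := by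
      intro h3
      exact h1 ((hlt i hi _ (hK 0)).1 ((hlt i hi w (hYkC hw)).2 h3))
    apply h2
    refine (hH K w (fun s => st.hC (hKC s)) (st.hC (hC0 (hYkC hw))) hKK (hYk hw).2).mono_set ?_
    rintro c ⟨hc, y, hy, hyw, hyc⟩
    refine ⟨st.hC hc, y, st.hYX i hi hy, ?_, hyw.symm, hyc⟩
    intro s
    by_contra hs
    exact hcon y hy ⟨s, hs⟩ hyw
  have hD3Q1 : ∀ x ∈ Q1, ∀ c ∈ D3, ¬ G.Adj x c := by
    intro x hx c hcD h
    rcases hQ1Z x hx with h1 | h1
    · exact st.hanti x h1 c (hD3C hcD) h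
    · exact (hD3 hcD).1.2 x h1 ⟨hCX (hD3C hcD), h⟩
  -- the vertices u
  obtain ⟨C', hC', W', hW', u', hC'W', hC'col, hu'⟩ := alpha_iter hc (b := k * k * h0 + b)
    (P := fun i => i < k ∧ ty i = none)
    (Q := Q1) (U := fun i => {y ∈ st.Y i | ∃ s, ¬ G.Adj (K s) y}) (hQ1X.trans hX')
    ⟨K 0, hKQ1 0⟩ hQ1c (fun i hi u hu => hX' (st.hYX i hi.1 hu.1))
    (fun i hi u hu => ⟨st.e i 0, hQQ1 (st.he i hi.1 0), (st.hYe i hi.1 u hu.1 0).symm⟩) k D3 Yk
    (hD3C.trans hCX) (hYkC.trans (hC0.trans hCX)) hD3Q1 (by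
      rintro i ⟨hi, h⟩ u ⟨hu, s, hs⟩ v hv huv
      exact hs (hnone i hi h v hv u hu huv s))
    (fun i hi w hw => by
      obtain ⟨y, hy, h1, h2⟩ := hheavy i hi.1 hi.2 w hw
      exact ⟨y, ⟨hy, h1⟩, h2⟩)
    (fun c hc => (hD3 hc).2) (fun h => hD3col (h.mono (Nat.le_add_left _ _)))
  -- removing the bad vertices
  let I : Finset (ℕ × ℕ) := (Finset.range k ×ˢ Finset.range k).filter
    (fun p => p.1 < p.2 ∧ st.tp p.1 p.2 = none ∧ ty p.2 = none)
  let B : ℕ × ℕ → Set V := fun p => {c ∈ X' | ∃ w ∈ X', (∀ s, G.Adj (st.e p.2 s) w) ∧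
    G.Adj (u' p.2) w ∧ G.Adj w c}
  have hI : I.card ≤ k * k := (Finset.card_filter_le _ _).trans (by simp)
  have hB : ∀ p ∈ I, Col G (B p) h0 := by
    rintro ⟨i, j⟩ hp
    simp only [I, Finset.mem_filter, Finset.mem_product, Finset.mem_range] at hp
    obtain ⟨⟨hi, hj⟩, hij, h1, h2⟩ := hp
    have h3 := (hu' j hj ⟨hj, h2⟩).1.1
    exact hH (st.e j) (u' j) (fun s => st.hQ (st.he j hj s)) (st.hYX j hj h3) (st.hee j hj)
      (fun s => st.hYe j hj _ h3 s)
  have hfin := remove I B hB hI hC'col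
  -- the new state
  let e2 : ℕ → Fin (κ + 1) → V := fun i => if i = k then K else st.e i
  let Y2 : ℕ → Set V := fun i => if i = k then W' else {y ∈ st.Y i |
    (ty i = none → ∀ s, G.Adj (K s) y) ∧ (∀ s, ty i = some s → ¬ G.Adj (K s) y) ∧
    ∀ j < k, i < j → st.tp i j = none → ty j = none → ¬ G.Adj (u' j) y}
  let tp2 : ℕ → ℕ → Option (Fin (κ + 1)) := fun i j => if j = k then ty i else st.tp i j
  let u2 : ℕ → ℕ → V := fun i j => if j = k then u' i else st.u i j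
  have ek : e2 k = K := by simp [e2]
  have eo : ∀ i, i < k → e2 i = st.e i := by
    intro i hi
    simp only [e2]
    rw [if_neg (by omega)]
  have Yk2 : Y2 k = W' := by simp [Y2]
  have Yo : ∀ i, i < k → Y2 i = {y ∈ st.Y i |
    (ty i = none → ∀ s, G.Adj (K s) y) ∧ (∀ s, ty i = some s → ¬ G.Adj (K s) y) ∧
    ∀ j < k, i < j → st.tp i j = none → ty j = none → ¬ G.Adj (u' j) y} := by
    intro i hi
    simp only [Y2]
    rw [if_neg (by omega)]
  have Yos : ∀ i, i < k → Y2 i ⊆ st.Y i := by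
    intro i hi
    rw [Yo i hi]
    exact fun y hy => hy.1
  have tk : ∀ i, tp2 i k = ty i := by
    intro i
    simp [tp2]
  have tpo : ∀ i j, j < k → tp2 i j = st.tp i j := by
    intro i j hj
    simp only [tp2]
    rw [if_neg (by omega)]
  have uk : ∀ i, u2 i k = u' i := by
    intro i
    simp [u2]
  have uo : ∀ i j, j < k → u2 i j = st.u i j := by
    intro i j hj
    simp only [u2]
    rw [if_neg (by omega)]
  have hW'C : W' ⊆ st.C := hW'.trans (hYkC.trans hC0)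
  have hC'C : C' ⊆ st.C := hC'.trans hD3C
  have hcase : ∀ i, i < k + 1 → i < k ∨ i = k := fun i hi => by omega
  refine ⟨{ Q := Q1 ∪ {v | ∃ i < k, ty i = none ∧ v = u' i}
            C := {c ∈ C' | ∀ i ∈ I, c ∉ B i}
            e := e2
            Y := Y2
            tp := tp2
            u := u2
            hQ := ?_
            hQ0 := fun h => absurd h (Nat.succ_ne_zero k)
            hconn := ?_
            hC := fun c hc => st.hC (hC'C hc.1)
            hcol := hfin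
            hanti := ?_
            he := ?_
            hee := ?_
            hYX := ?_
            hYi := ?_
            hYe := ?_
            hCY := ?_
            hd := ?_
            hs := ?_
            hn1 := ?_
            hn2 := ?_
            hn3 := ?_
            hn4 := ?_
            hn5 := ?_
            hn6 := ?_ }⟩
  · rintro v (hv | ⟨i, hi, h, rfl⟩)
    · exact hQ1X hv
    · exact st.hYX i hi (hu' i hi ⟨hi, h⟩).1.1
  · refine hQ1c.union ?_
    rintro _ ⟨i, hi, h, rfl⟩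
    exact ⟨st.e i 0, hQQ1 (st.he i hi 0), (st.hYe i hi _ (hu' i hi ⟨hi, h⟩).1.1 0).symm⟩
  · rintro x (hx | ⟨i, hi, h, rfl⟩) c hcc hxc
    · exact hD3Q1 x hx c (hC' hcc.1) hxc
    · obtain ⟨hy, s, hs⟩ := (hu' i hi ⟨hi, h⟩).1
      exact hs (hnone i hi h c (hC' hcc.1) _ hy hxc s)
  · intro i hi s
    rcases hcase i hi with hi | rfl
    · rw [eo i hi]
      exact Or.inl (hQQ1 (st.he i hi s))
    · rw [ek]
      exact Or.inl (hKQ1 s)
  · intro i hi s s' hss
    rcases hcase i hi with hi | rfl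
    · rw [eo i hi]
      exact st.hee i hi s s' hss
    · rw [ek]
      exact hKK s s' hss
  · intro i hi
    rcases hcase i hi with hi | rfl
    · exact (Yos i hi).trans (st.hYX i hi)
    · rw [Yk2]
      exact hW'C.trans st.hC
  · intro i hi y hy y' hy'
    rcases hcase i hi with hi | rfl
    · exact st.hYi i hi y (Yos i hi hy) y' (Yos i hi hy')
    · rw [Yk2] at hy hy'
      exact hYki y (hW' hy) y' (hW' hy')
  · intro i hi y hy s
    rcases hcase i hi with hi | rfl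
    · rw [eo i hi]
      exact st.hYe i hi y (Yos i hi hy) s
    · rw [Yk2] at hy
      rw [ek]
      exact (hYk (hW' hy)).2 s
  · intro i hi c hcc
    rcases hcase i hi with hi | rfl
    · rw [Yo i hi]
      have hcD : c ∈ D3 := hC' hcc.1
      have hkey : ∀ y ∈ st.Y i, G.Adj y c → ∀ j < k, i < j → st.tp i j = none → ty j = none →
          ¬ G.Adj (u' j) y := by
        intro y hy hyc j hj hij h1 h2 huy
        refine hcc.2 (i, j) ?_ ?_
        · simp only [I, Finset.mem_filter, Finset.mem_product, Finset.mem_range]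
          exact ⟨⟨hi, hj⟩, hij, h1, h2⟩
        · exact ⟨st.hC (hC'C hcc.1), y, st.hYX i hi hy, st.hn6 i j hij hj h1 y hy, huy, hyc⟩
      cases hti : ty i with
      | none =>
        obtain ⟨y, hy, hyc⟩ := st.hCY i hi c (hC'C hcc.1)
        refine ⟨y, ⟨hy, fun _ => hnone i hi hti c hcD y hy hyc, ?_, hkey y hy hyc⟩, hyc⟩
        intro s hs
        exact absurd hs (by simp)
      | some s =>
        obtain ⟨y, hy, hyc, hsy⟩ := hsome i hi s hti c hcD
        refine ⟨y, ⟨hy, ?_, ?_, hkey y hy hyc⟩, hyc⟩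
        · intro h
          exact absurd h (by simp)
        · intro s' hs'
          have : s = s' := by simpa using hs'
          rw [← this]
          exact hsy
    · rw [Yk2]
      exact hC'W' c hcc.1
  · intro i j hij hj s y hy
    rcases hcase j hj with hj | rfl
    · rw [eo i (by omega)]
      exact st.hd i j hij hj s y (Yos j hj hy)
    · rw [Yk2] at hy
      rw [eo i hij]
      exact st.hanti _ (st.he i hij s) y (hW'C hy)
  · intro i j hij hj s hs y hy
    rcases hcase j hj with hj | rfl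
    · rw [eo j hj]
      rw [tpo i j hj] at hs
      exact st.hs i j hij hj s hs y (Yos i (by omega) hy)
    · rw [ek]
      rw [tk] at hs
      rw [Yo i hij] at hy
      exact hy.2.2.1 s hs
  · intro i j hij hj h
    rcases hcase j hj with hj | rfl
    · rw [tpo i j hj] at h
      rw [uo i j hj]
      exact Or.inl (hQQ1 (st.hn1 i j hij hj h))
    · rw [tk] at h
      rw [uk]
      exact Or.inr ⟨i, hij, h, rfl⟩
  · intro i j hij hj h y hy
    rcases hcase j hj with hj | rfl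
    · rw [tpo i j hj] at h
      rw [uo i j hj]
      exact st.hn2 i j hij hj h y (Yos j hj hy)
    · rw [tk] at h
      rw [uk]
      rw [Yk2] at hy
      exact (hu' i hij ⟨hij, h⟩).2 y hy
  · intro i j hij hj h y hy
    rcases hcase j hj with hj | rfl
    · rw [tpo i j hj] at h
      rw [uo i j hj]
      exact st.hn3 i j hij hj h y (Yos i (by omega) hy)
    · rw [tk] at h
      rw [uk]
      exact st.hYi i hij _ (hu' i hij ⟨hij, h⟩).1.1 y (Yos i hij hy)
  · intro i j l hij hjl hl h y hy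
    rw [tpo i j (by omega)] at h
    rw [uo i j (by omega)]
    rcases hcase l hl with hl | rfl
    · exact st.hn4 i j l hij hjl hl h y (Yos l hl hy)
    · rw [Yk2] at hy
      exact st.hanti _ (st.hn1 i j hij hjl h) y (hW'C hy)
  · intro l i j hli hij hj h1 h2 y hy
    rw [tpo l i (by omega)] at h1
    rcases hcase j hj with hj | rfl
    · rw [tpo i j hj] at h2
      rw [uo i j hj]
      exact st.hn5 l i j hli hij hj h1 h2 y (Yos l (by omega) hy)
    · rw [tk] at h2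
      rw [uk]
      rw [Yo l (by omega)] at hy
      exact hy.2.2.2 i hij hli h1 h2
  · intro i j hij hj h y hy s
    rcases hcase j hj with hj | rfl
    · rw [tpo i j hj] at h
      rw [eo j hj]
      exact st.hn6 i j hij hj h y (Yos i (by omega) hy) s
    · rw [tk] at h
      rw [ek]
      rw [Yo i hij] at hy
      exact hy.2.1 h s

end Pool.Agent.H430R3.SW
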